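import Pool.Agent.Lib_helper8.SDN.DKe
import Pool.Agent.Lib_helper8.SDF.Uses
import Pool.Agent.Lib_helper26.SDN.CO

/-!
Block DK (assembly of the dense theorem), part f: transport, constants, final form.
-/

namespace Pool.Agent.SDN

open Finset

universe u

open Classical in
theorem dk_left {G V₀ : Type*} [AddCommGroup G] [AddCommGroup V₀] [Fintype V₀] {A : Finset G}
    {H V : AddSubgroup G} {x : G} {φ : V₀ →+ G} {ν N m s : ℕ} {y : ℕ → G} {w : ℕ → V₀}
    {T₀ : V₀} {L : Fin ν → Finset (Fin N)} {B₀ : Finset V₀} {Z : Fin s → Fin m → V₀}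
    {S : Finset (Fin s)} {lab : V₀ → Fin N} {wy : Finset V₀}
    {Tm : Fin ν → List (V₀ × Option (Fin s))}
    (h : DKD A H V x φ ν N m s y w T₀ L B₀ Z S lab wy Tm) (hHV : H ≤ V) (hx : x ∈ V) :
    (dkΛ A φ y Z S Tm).card ≤
      (B₀.filter fun b => (∀ κ, b ∉ cl (Tm κ)) ∧ ∀ z ∈ S, ∀ i, Z z i ≠ b).card +
        {a ∈ (A : Set G) | a - x ∉ H}.ncard := by
  have h1 : dkΛ A φ y Z S Tm ⊆
      ((B₀.filter fun b => (∀ κ, b ∉ cl (Tm κ)) ∧ ∀ z ∈ S, ∀ i, Z z i ≠ b).image φ) ∪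
        A.filter fun a => a - x ∉ H := by
    intro a ha
    have ha' := mem_filter.1 ha
    rw [mem_union]
    by_cases hax : a - x ∈ H
    · left
      have haV : a ∈ V := by
        have h2 := V.add_mem (hHV hax) hx
        rwa [sub_add_cancel] at h2
      rw [← SetLike.mem_coe, ← h.hr] at haV
      obtain ⟨b, rfl⟩ := haV
      refine mem_image_of_mem _ (mem_filter.2 ⟨(h.hB₀ b).2 ⟨ha'.1, hax⟩, ?_, ?_⟩)
      · intro κ hb
        exact ha'.2.1 κ (List.mem_map_of_mem hb)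
      · intro z hz i hzi
        refine ha'.2.2.1 z hz ?_
        unfold dkE
        rw [List.mem_ofFn]
        exact ⟨i, by rw [hzi]⟩
    · right
      exact mem_filter.2 ⟨ha'.1, hax⟩
  refine (card_le_card h1).trans ((card_union_le _ _).trans ?_)
  refine Nat.add_le_add card_image_le (le_of_eq ?_)
  rw [← Set.ncard_coe_finset]
  congr 1
  ext a
  simp

theorem dk_lt_length {G V₀ : Type*} [AddCommGroup G] [AddCommGroup V₀] {m s : ℕ} (φ : V₀ →+ G)
    (Z : Fin s → Fin m → V₀) (Λ : Finset G) (U : Finset (Fin s)) (lt : List G)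
    (h : lt.Perm (Λ.toList ++ U.toList.flatMap fun z => dkE φ Z z)) :
    lt.length = Λ.card + U.card * m := by
  rw [h.length_eq, List.length_append, Finset.length_toList, List.length_flatMap]
  congr 1
  have h1 : (fun z => (dkE φ Z z).length) = fun _ => m := by
    funext z
    unfold dkE
    exact List.length_ofFn
  rw [h1, List.map_const', List.sum_replicate, Finset.length_toList, smul_eq_mul]

/-- constants and transport, for a fixed `d` -/
theorem dk_fixed (ν N : ℕ) (β η : ℝ) (hβ : 0 < β) (hη : 0 < η) (L : Fin ν → Finset (Fin N))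
    (f : Fin ν → ℝ) (hf0 : ∀ κ, 0 < f κ) (hf1 : ∑ κ, f κ = 1)
    (hL : ∀ κ, ∀ l ∈ L κ, 2 ≤ (l : ℕ)) (d : ℕ) (hd : 1 ≤ d) :
    ∃ τ : ℝ, 0 < τ ∧ ∃ K : ℕ, ∀ {G : Type u} [AddCommGroup G] (A : Finset G)
      (H : AddSubgroup G) (x : G) (y : ℕ → G),
      (0 : G) ∉ A → K ≤ A.card → (H : Set G).Finite → Nat.card H ≤ 10000 * A.card →
      d • x ∈ H →
      ({a ∈ (A : Set G) | a - x ∉ H}.ncard : ℝ) ≤ τ * A.card →
      (∀ (H' : AddSubgroup G) (z : G), H' < H →
        β * A.card < ({a ∈ (A : Set G) | a - z ∉ H'}.ncard : ℝ)) →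
      (∀ l, y l = 0 ∨ (y l ∈ A ∧ y l - x ∉ H)) →
      (∀ l l', y l ≠ 0 → y l = y l' → l = l') →
      (∀ κ ≤ ν, ∀ κ' ≤ ν, (∑ l ∈ range κ, y l) - ∑ l ∈ range κ', y l ∈
        H ⊔ AddSubgroup.zmultiples x → ∑ l ∈ range κ, y l = ∑ l ∈ range κ', y l) →
      (∀ κ : Fin ν, f κ * ({a ∈ (A : Set G) | a - x ∈ H}.ncard : ℝ) ≤
        (1 - η) * (((L κ).card : ℝ) / N) * Nat.card (H ⊔ AddSubgroup.zmultiples x :
          AddSubgroup G)) →
      SDF.KOrd A (H ⊔ AddSubgroup.zmultiples x) ν N η L y := by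
  classical
  have hν : 0 < ν := by
    rcases Nat.eq_zero_or_pos ν with h | h
    · subst h
      simp at hf1
    · exact h
  -- the part `B` is not empty
  have hBpos : ∀ {G : Type u} [AddCommGroup G] (A : Finset G) (H : AddSubgroup G) (x : G),
      1 ≤ A.card → ({a ∈ (A : Set G) | a - x ∉ H}.ncard : ℝ) ≤ 1 / 2 * A.card →
      (A.card : ℝ) ≤ 2 * ({a ∈ (A : Set G) | a - x ∈ H}.ncard : ℝ) := by
    intro G _ A H x hA hout
    have e1 : {a ∈ (A : Set G) | a - x ∈ H}.ncard = (A.filter fun a => a - x ∈ H).card := by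
      rw [← Set.ncard_coe_finset]; congr 1; ext a; simp
    have e2 : {a ∈ (A : Set G) | a - x ∉ H}.ncard = (A.filter fun a => a - x ∉ H).card := by
      rw [← Set.ncard_coe_finset]; congr 1; ext a; simp
    have e3 := Finset.card_filter_add_card_filter_not (s := A) (fun a => a - x ∈ H)
    rw [e2] at hout
    rw [e1]
    have e4 : ((A.filter fun a => a - x ∈ H).card : ℝ) + (A.filter fun a => a - x ∉ H).card =
        A.card := by exact_mod_cast e3
    linarith
  by_cases hemp : ∃ κ, L κ = ∅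
  · obtain ⟨κ, hκ⟩ := hemp
    refine ⟨1 / 2, by norm_num, 1, fun {G} _ A H x y h0 hKA hfin hcard hdx hout hsub hy1 hy2 hC
      hload => ?_⟩
    exfalso
    have h1 := hload κ
    rw [hκ, card_empty, Nat.cast_zero, zero_div, mul_zero, zero_mul] at h1
    have h2 := hBpos A H x hKA hout
    have h3 : (1 : ℝ) ≤ A.card := by exact_mod_cast hKA
    have h4 := mul_pos (hf0 κ) (show 0 < ({a ∈ (A : Set G) | a - x ∈ H}.ncard : ℝ) by linarith)
    linarith
  push Not at hemp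
  have hLne : ∀ κ, (L κ).Nonempty := hemp
  have hN : 2 ≤ N := by
    obtain ⟨l, hl⟩ := hLne ⟨0, hν⟩
    have h1 := hL _ l hl
    have h2 := l.2
    omega
  obtain ⟨m, hm, ρ, hρ, hcore⟩ := core d hd (1 / 20000) (β / 2) η (by norm_num) (by linarith) hη
    ν N hN L hLne hL f (fun κ => (hf0 κ).le) hf1
  set q : ℝ := 10 * ((m : ℝ) + 2) ^ 2 with hq
  have hq0 : 0 < q := by positivity
  have hN0 : (0 : ℝ) < N := by
    have : 0 < N := by omega
    exact_mod_cast this
  set η' : ℝ := min (η / (4 * (N + 1))) (min (ρ / (8 * q)) (η / (8 * (m + 1)))) with hη'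
  have hη'0 : 0 < η' := by
    rw [hη']
    refine lt_min (by positivity) (lt_min (by positivity) (by positivity))
  have hη'1 : η' * (4 * (N + 1)) ≤ η := by
    rw [← le_div_iff₀ (by positivity)]
    exact min_le_left _ _
  have hη'2 : η' * (8 * q) ≤ ρ := by
    rw [← le_div_iff₀ (by positivity)]
    exact (min_le_right _ _).trans (min_le_left _ _)
  have hη'3 : η' * (8 * (m + 1)) ≤ η := by
    rw [← le_div_iff₀ (by positivity)]
    exact (min_le_right _ _).trans (min_le_right _ _)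
  set τ : ℝ := min (min (β / 2) (1 / 2)) (min (ρ / (16 * q)) (η / (16 * (m + 1)))) with hτ
  have hτ0 : 0 < τ := by
    rw [hτ]
    refine lt_min (lt_min (by linarith) (by norm_num)) (lt_min (by positivity) (by positivity))
  have hτ1 : τ ≤ β / 2 := (min_le_left _ _).trans (min_le_left _ _)
  have hτ2 : τ ≤ 1 / 2 := (min_le_left _ _).trans (min_le_right _ _)
  have hτ3 : τ * (16 * q) ≤ ρ := by
    rw [← le_div_iff₀ (by positivity)]
    exact (min_le_right _ _).trans (min_le_left _ _)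
  have hτ4 : τ * (16 * (m + 1)) ≤ η := by
    rw [← le_div_iff₀ (by positivity)]
    exact (min_le_right _ _).trans (min_le_right _ _)
  obtain ⟨K', hK'⟩ := hcore η' hη'0
  obtain ⟨K₁, hK₁⟩ := exists_nat_gt ((3 * q + 1) * 2 / ρ + (4 * m + 4) / η)
  refine ⟨τ, hτ0, 2 * (K' + K₁ + ν + 2), fun {G} _ A H x y h0 hKA hfin hcard hdx hout hsub hy1
    hy2 hC hload => ?_⟩
  have hA1 : 1 ≤ A.card := by omega
  have hA0 : (0 : ℝ) < A.card := by exact_mod_cast (by omega : 0 < A.card)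
  set V : AddSubgroup G := H ⊔ AddSubgroup.zmultiples x with hV
  have hHV : H ≤ V := le_sup_left
  have hxV : x ∈ V := AddSubgroup.mem_sup_right (AddSubgroup.mem_zmultiples x)
  obtain ⟨hVfin, hVrep⟩ := dk_Vfin H x hfin d hd hdx
  obtain ⟨V₀, instG, instF, φ, hφ, hr⟩ := transport V hVfin
  have hrH : (H : Set G) ⊆ Set.range φ := by
    rw [hr]; exact hHV
  have hcV : Nat.card V = Fintype.card V₀ := by
    rw [← Nat.card_eq_fintype_card, Nat.card_congr (Equiv.ofInjective φ hφ)]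
    have : Nat.card (Set.range φ) = Nat.card (V : Set G) := by rw [hr]
    rw [this]
    rfl
  obtain ⟨x₀, hx₀⟩ : ∃ x₀, φ x₀ = x := by
    have : x ∈ Set.range φ := by rw [hr]; exact hxV
    exact this
  let H₀ : AddSubgroup V₀ := H.comap φ
  have hH₀ : ∀ u, u ∈ H₀ ↔ φ u ∈ H := fun u => Iff.rfl
  have hcH : Nat.card H₀ = Nat.card H := by
    have e1 : Nat.card H₀ = (H₀ : Set V₀).ncard := by
      rw [← Nat.card_coe_set_eq]; rfl
    have e2 : Nat.card H = (H : Set G).ncard := by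
      rw [← Nat.card_coe_set_eq]; rfl
    rw [e1, e2, ← Set.ncard_image_of_injective _ hφ]
    congr 1
    exact Set.image_preimage_eq_of_subset hrH
  let B₀ : Finset V₀ := univ.filter fun b => φ b ∈ A ∧ φ b - x ∈ H
  have hB₀ : ∀ b, b ∈ B₀ ↔ φ b ∈ A ∧ φ b - x ∈ H := fun b => by simp [B₀]
  have hinV : ∀ a : G, a - x ∈ H → ∃ b, φ b = a := by
    intro a ha
    have h2 : a ∈ V := by
      have h3 := V.add_mem (hHV ha) hxV
      rwa [sub_add_cancel] at h3
    have : a ∈ Set.range φ := by rw [hr]; exact h2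
    exact this
  have hcB : B₀.card = {a ∈ (A : Set G) | a - x ∈ H}.ncard := by
    rw [← Set.ncard_coe_finset, ← Set.ncard_image_of_injective _ hφ]
    congr 1
    ext a
    constructor
    · rintro ⟨b, hb, rfl⟩
      exact (hB₀ b).1 hb
    · rintro ⟨ha, hax⟩
      obtain ⟨b, rfl⟩ := hinV a hax
      exact ⟨b, (hB₀ b).2 ⟨ha, hax⟩, rfl⟩
  have hBA : B₀.card ≤ A.card := by
    rw [hcB, ← Set.ncard_coe_finset A]
    exact Set.ncard_le_ncard (fun a ha => ha.1) A.finite_toSet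
  have hAB : (A.card : ℝ) ≤ 2 * B₀.card := by
    rw [hcB]
    exact hBpos A H x hA1 (hout.trans (mul_le_mul_of_nonneg_right hτ2 hA0.le))
  have hBH : B₀.card ≤ Nat.card H := by
    rw [hcB]
    exact SDF.ncard_in_le A H x hfin
  have hHVc : Nat.card H ≤ Nat.card V := by
    have : Finite V := hVfin
    exact Nat.card_le_card_of_injective (AddSubgroup.inclusion hHV)
      (AddSubgroup.inclusion_injective hHV)
  set v : ℝ := (Fintype.card V₀ : ℝ) with hv
  have hBv : (B₀.card : ℝ) ≤ v := by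
    rw [hv]
    exact_mod_cast (hBH.trans hHVc).trans hcV.le
  have hAv : (A.card : ℝ) ≤ 2 * v := by linarith
  have hKv : K' + K₁ + ν + 2 ≤ Fintype.card V₀ := by
    have h1 : ((2 * (K' + K₁ + ν + 2) : ℕ) : ℝ) ≤ 2 * v := by
      have : ((2 * (K' + K₁ + ν + 2) : ℕ) : ℝ) ≤ A.card := by exact_mod_cast hKA
      linarith
    have h2 : 2 * (K' + K₁ + ν + 2) ≤ 2 * Fintype.card V₀ := by
      rw [hv] at h1
      exact_mod_cast h1
    omega
  have hvK : (3 * q + 1) * 2 / ρ + (4 * m + 4) / η < v := by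
    have : (K₁ : ℝ) ≤ v := by
      rw [hv]
      exact_mod_cast (by omega : K₁ ≤ Fintype.card V₀)
    linarith
  have hv1 : (3 * q + 1) * 2 < v * ρ := by
    rw [← div_lt_iff₀ hρ]
    have : 0 ≤ (4 * (m : ℝ) + 4) / η := by positivity
    linarith
  have hv2 : 4 * (m : ℝ) + 4 < v * η := by
    rw [← div_lt_iff₀ hη]
    have : 0 ≤ (3 * q + 1) * 2 / ρ := by positivity
    linarith
  have hv0 : 0 < v := lt_of_le_of_lt (by positivity) hvK
  -- final vertex
  obtain ⟨T₀, hT₀⟩ := dk_rep V φ hr y ν hC (∑ a ∈ A, a)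
  obtain ⟨w, hw0, hw, hwT⟩ := dk_w T₀ ν (by omega)
  -- spread
  have hSpr : Spr H₀ (β / 2) B₀ := by
    intro K y₀ hK
    have hK2 : K.map φ < H := by
      refine lt_of_le_of_ne ?_ ?_
      · rintro _ ⟨k, hk, rfl⟩
        exact (hH₀ k).1 (hK.le hk)
      · intro he
        refine absurd hK (not_lt_of_ge ?_)
        intro u hu
        have h1 : φ u ∈ K.map φ := by
          rw [he]
          exact (hH₀ u).1 hu
        obtain ⟨k, hk, hku⟩ := h1
        rwa [← hφ hku]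
    have h1 := hsub (K.map φ) (φ y₀) hK2
    have h2 : {a ∈ (A : Set G) | a - φ y₀ ∉ K.map φ} ⊆
        (φ '' {b ∈ (B₀ : Set V₀) | b - y₀ ∉ K}) ∪ {a ∈ (A : Set G) | a - x ∉ H} := by
      rintro a ⟨ha, hay⟩
      by_cases hax : a - x ∈ H
      · left
        obtain ⟨b, rfl⟩ := hinV a hax
        refine ⟨b, ⟨(hB₀ b).2 ⟨ha, hax⟩, fun hk => hay ?_⟩, rfl⟩
        exact ⟨b - y₀, hk, by rw [map_sub]⟩
      · exact Or.inr ⟨ha, hax⟩
    have h3 : {a ∈ (A : Set G) | a - φ y₀ ∉ K.map φ}.ncard ≤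
        {b ∈ (B₀ : Set V₀) | b - y₀ ∉ K}.ncard + {a ∈ (A : Set G) | a - x ∉ H}.ncard := by
      refine (Set.ncard_le_ncard h2 ?_).trans ((Set.ncard_union_le _ _).trans ?_)
      · refine Set.Finite.union (Set.Finite.image _ ?_) ?_
        · exact B₀.finite_toSet.subset fun b hb => hb.1
        · exact A.finite_toSet.subset fun b hb => hb.1
      · rw [Set.ncard_image_of_injective _ hφ]
    have h4 : ({a ∈ (A : Set G) | a - φ y₀ ∉ K.map φ}.ncard : ℝ) ≤
        ({b ∈ (B₀ : Set V₀) | b - y₀ ∉ K}.ncard : ℝ) +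
          ({a ∈ (A : Set G) | a - x ∉ H}.ncard : ℝ) := by exact_mod_cast h3
    have h5 : (B₀.card : ℝ) ≤ A.card := by exact_mod_cast hBA
    have h6 : τ * (A.card : ℝ) ≤ β / 2 * A.card := mul_le_mul_of_nonneg_right hτ1 hA0.le
    have h7 : β / 2 * (B₀.card : ℝ) ≤ β / 2 * A.card :=
      mul_le_mul_of_nonneg_left h5 (by linarith)
    linarith
  obtain ⟨s, Z, S, lab, Tm, wy, hwy, hZ, c1, c2, c3, c4, c5, c6, c7, c8⟩ := hK' H₀ x₀ B₀ T₀
    (fun κ : Fin ν => w κ) (fun κ : Fin ν => w (κ + 1)) (by omega)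
    (by
      intro u
      have h1 : φ u ∈ V := by
        rw [← SetLike.mem_coe, ← hr]; exact ⟨u, rfl⟩
      obtain ⟨i, hi⟩ := hVrep (φ u) h1
      refine ⟨i, ?_⟩
      rw [hH₀, map_sub, map_nsmul, hx₀]
      exact hi)
    (by rw [hH₀, map_nsmul, hx₀]; exact hdx)
    (by
      intro b hb
      rw [hH₀, map_sub, hx₀]
      exact ((hB₀ b).1 hb).2)
    (by
      intro hb
      have := ((hB₀ 0).1 hb).1
      rw [map_zero] at this
      exact h0 this)
    (by
      rw [hcH]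
      have h1 : (Nat.card H : ℝ) ≤ 10000 * A.card := by exact_mod_cast hcard
      linarith)
    hSpr
    (by
      intro κ
      have h1 := hload κ
      rw [← hcB, hcV] at h1
      exact h1)
    (by
      intro κ he
      have := hw κ κ.2.le (κ + 1) κ.2 he
      omega)
  have hD : DKD A H V x φ ν N m s y w T₀ L B₀ Z S lab wy Tm := by
    refine ⟨h0, hν, hm, hφ, hr, hy1, hy2, hC, hw0, hw, hwT, hT₀, hB₀, ?_, ?_, hZ, c1, c2, c3,
      c4, c5⟩
    · intro i hi
      rw [hwy, mem_insert, mem_union, mem_image, mem_image]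
      right
      rcases Nat.lt_or_ge i ν with h1 | h1
      · left
        exact ⟨⟨i, h1⟩, mem_univ _, rfl⟩
      · right
        refine ⟨⟨ν - 1, by omega⟩, mem_univ _, ?_⟩
        show w (ν - 1 + 1) = w i
        rw [show ν - 1 + 1 = i by omega]
    · rw [hwy]
      exact mem_insert_self _ _
  -- leftovers
  have hΛ1 := dk_left hD hHV hxV
  have hΛ : ((dkΛ A φ y Z S Tm).card : ℝ) ≤ (η' + 2 * τ) * v := by
    have h1 : ((dkΛ A φ y Z S Tm).card : ℝ) ≤
        ((B₀.filter fun b => (∀ κ, b ∉ cl (Tm κ)) ∧ ∀ z ∈ S, ∀ i, Z z i ≠ b).card : ℝ) +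
          ({a ∈ (A : Set G) | a - x ∉ H}.ncard : ℝ) := by exact_mod_cast hΛ1
    have h2 : τ * (A.card : ℝ) ≤ τ * (2 * v) := mul_le_mul_of_nonneg_left hAv hτ0.le
    have h3 : ((B₀.filter fun b => (∀ κ, b ∉ cl (Tm κ)) ∧ ∀ z ∈ S, ∀ i, Z z i ≠ b).card : ℝ) ≤
        η' * v := by
      convert c6 using 3
    linarith
  have hmq : (m : ℝ) + 1 ≤ q := by
    rw [hq]
    nlinarith [show (0 : ℝ) ≤ m by positivity]
  -- tail
  obtain ⟨U, lt, hU, hUc, hlt, hlt1, hlt2, hlt3⟩ := hD.tail hL ⌊ρ * v⌋₊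
    (by
      have h1 : ((10 * (m + 2) ^ 2 * ((dkΛ A φ y Z S Tm).card + 3) : ℕ) : ℝ) ≤ ρ * v - 1 := by
        push_cast
        rw [← hq]
        have h2 : q * ((dkΛ A φ y Z S Tm).card : ℝ) ≤ q * ((η' + 2 * τ) * v) :=
          mul_le_mul_of_nonneg_left hΛ hq0.le
        have h3 : q * ((η' + 2 * τ) * v) = (η' * (8 * q)) * v / 8 + (τ * (16 * q)) * v / 8 := by
          ring
        have h4 : (η' * (8 * q)) * v ≤ ρ * v := mul_le_mul_of_nonneg_right hη'2 hv0.le
        have h5 : (τ * (16 * q)) * v ≤ ρ * v := mul_le_mul_of_nonneg_right hτ3 hv0.le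
        nlinarith
      have h2 := Nat.lt_floor_add_one (ρ * v)
      have h3 : ((10 * (m + 2) ^ 2 * ((dkΛ A φ y Z S Tm).card + 3) : ℕ) : ℝ) < ⌊ρ * v⌋₊ := by
        linarith
      exact_mod_cast h3.le)
    (by
      intro c
      refine Nat.floor_le_of_le ?_
      convert c7 c using 3)
  obtain ⟨l, b, hl, hb0, hbs, hlen, hpairs⟩ := hD.lists U hU lt hlt hlt1 hlt2 hlt3
  have hlc : l.length = A.card := by
    rw [← Multiset.coe_card, hl]
    rfl
  have hlnd : l.Nodup := by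
    rw [← Multiset.coe_nodup, hl]
    exact A.nodup
  have hlm : ∀ a, a ∈ l ↔ a ∈ A := by
    intro a
    rw [← Multiset.mem_coe, hl]
    rfl
  obtain ⟨a, ha, hra, hsum⟩ := fun_of_list A l hlnd hlm
  refine ⟨a, ha, hra, b, hb0, fun κ hκ => by rw [hbs κ hκ]; exact Nat.le_add_right _ _,
    by omega, ?_, ?_, ?_⟩
  · intro κ
    have h1 := hD.len hN η' (by intro l; convert c8 l using 3) (S \ U) κ
    rw [hbs κ κ.2, hcV]
    push_cast
    have h2 : (((L κ).card : ℝ) + 1) ≤ N + 1 := by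
      have : (L κ).card ≤ N := by
        have := Finset.card_le_univ (L κ)
        rwa [Fintype.card_fin] at this
      have h3 : ((L κ).card : ℝ) ≤ N := by exact_mod_cast this
      linarith
    have h3 : (((L κ).card : ℝ) + 1) * (η' * v) ≤ (N + 1) * (η' * v) :=
      mul_le_mul_of_nonneg_right h2 (by positivity)
    have h4 : (η' * (4 * ((N : ℝ) + 1))) * v ≤ η * v := mul_le_mul_of_nonneg_right hη'1 hv0.le
    have h5 : (((L κ).card : ℝ) + 1) * (v / N) = (((L κ).card : ℝ) + 1) / N * v := by ring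
    have h6 : (0 : ℝ) ≤ m := by positivity
    have h7 : (((L κ).card : ℝ) + 1) * (v / N + η' * v) =
        (((L κ).card : ℝ) + 1) * (v / N) + (((L κ).card : ℝ) + 1) * (η' * v) := by ring
    rw [h7, h5] at h1
    nlinarith
  · rw [hcV]
    have h1 := dk_lt_length φ Z (dkΛ A φ y Z S Tm) U lt hlt
    have h2 : (A.card : ℝ) = b ν + lt.length := by
      rw [← hlc, hlen]
      push_cast
      rfl
    have h3 : (lt.length : ℝ) = (dkΛ A φ y Z S Tm).card + U.card * m := by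
      rw [h1]
      push_cast
      rfl
    have h4 : (U.card : ℝ) ≤ (dkΛ A φ y Z S Tm).card + 2 := by exact_mod_cast hUc
    have hm0 : (0 : ℝ) ≤ m := by positivity
    have h5 : (U.card : ℝ) * m ≤ ((dkΛ A φ y Z S Tm).card + 2) * m :=
      mul_le_mul_of_nonneg_right h4 hm0
    have h6 : ((dkΛ A φ y Z S Tm).card : ℝ) * (m + 1) ≤ (η' + 2 * τ) * v * (m + 1) :=
      mul_le_mul_of_nonneg_right hΛ (by linarith)
    have h7 : (η' + 2 * τ) * v * (m + 1) =
        (η' * (8 * (m + 1))) * v / 8 + (τ * (16 * (m + 1))) * v / 8 := by ring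
    have h8 : (η' * (8 * ((m : ℝ) + 1))) * v ≤ η * v := mul_le_mul_of_nonneg_right hη'3 hv0.le
    have h9 : (τ * (16 * ((m : ℝ) + 1))) * v ≤ η * v := mul_le_mul_of_nonneg_right hτ4 hv0.le
    rw [h2, h3]
    nlinarith
  · intro i j hij hj hne heq
    unfold SDF.psum at heq
    rw [hsum i (by omega), hsum j hj] at heq
    obtain ⟨κ, κ', hk, hk', h1, h2, h3, h4, h5, h6⟩ := hpairs i j hij (by omega)
      (by rw [hlc]; exact hne) heq
    obtain ⟨hκ, u, hu, hue⟩ := h5
    obtain ⟨hκ', u', hu', hue'⟩ := h6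
    have h7 := hD.coset hκ.le hκ'.le (hue.symm.trans hue')
    obtain ⟨h8, rfl⟩ := h7
    refine ⟨⟨κ, hκ⟩, ⟨κ', hκ'⟩, hk, h1, h2, h3, h4, ?_, ?_⟩
    · have h9 : (∑ l ∈ range κ, y l) - ∑ l ∈ range κ', y l = 0 := by
        rw [sub_eq_zero]
        exact h8
      show (∑ l ∈ range κ, y l) - ∑ l ∈ range κ', y l ∈ V
      rw [h9]
      exact V.zero_mem
    · have hne' : (⟨κ, hκ⟩ : Fin ν) ≠ ⟨κ', hκ'⟩ := by
        intro h9
        have := congrArg Fin.val h9
        simp only at this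
        omega
      have h9 := c2 ⟨κ, hκ⟩ ⟨κ', hκ'⟩ hne' u hu hu'
      rw [Finset.not_disjoint_iff]
      refine ⟨lab u, ?_, ?_⟩
      · rcases ((c1 ⟨κ, hκ⟩).2.2.2 u hu).1 with h10 | h10
        · exact h10
        · exact absurd h10 h9
      · rcases ((c1 ⟨κ', hκ'⟩).2.2.2 u hu').1 with h10 | h10
        · exact h10
        · exact absurd h10 h9

/-- **The dense theorem.** -/
theorem dense_kinds : SDF.DenseKinds.{u} := by
  intro ν N D0 β η hβ hη L f hf0 hf1 hL
  choose τ hτ K hK using fun d : ℕ => dk_fixed.{u} ν N β η hβ hη L f hf0 hf1 hL (d + 1)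
    (Nat.succ_pos d)
  -- minimum of the constants
  obtain ⟨τ', hτ', hτ'le⟩ : ∃ τ' : ℝ, 0 < τ' ∧ ∀ d < D0, τ' ≤ τ d := by
    induction D0 with
    | zero => exact ⟨1, one_pos, fun d hd => absurd hd (Nat.not_lt_zero _)⟩
    | succ D0 ih =>
      obtain ⟨τ', h1, h2⟩ := ih
      refine ⟨min τ' (τ D0), lt_min h1 (hτ D0), fun d hd => ?_⟩
      rcases Nat.lt_or_ge d D0 with h3 | h3
      · exact (min_le_left _ _).trans (h2 d h3)
      · have : d = D0 := by omega
        rw [this]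
        exact min_le_right _ _
  refine ⟨τ', hτ', ∑ d ∈ range D0, K d, fun {G} _ A H x y h0 hKA hfin hcard hord hout hsub hy1
    hy2 hC hload => ?_⟩
  obtain ⟨j, hj1, hj2, hjx⟩ := hord
  have h1 : K (j - 1) ≤ A.card :=
    (Finset.single_le_sum (f := K) (fun _ _ => Nat.zero_le _)
      (mem_range.2 (by omega : j - 1 < D0))).trans hKA
  refine hK (j - 1) A H x y h0 h1 hfin hcard (by rwa [Nat.sub_add_cancel hj1])
    (hout.trans (mul_le_mul_of_nonneg_right (hτ'le _ (by omega)) (Nat.cast_nonneg _))) hsub hy1 hy2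
    hC hload

end Pool.Agent.SDN
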