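import Pool.Agent.Lib_helper26.SDN.Defs

/-!
Block DK (assembly of the dense theorem), part a: index bookkeeping.
-/

namespace Pool.Agent.SDN

open Finset

/-- vertices as a map over indices -/
theorem dk_vs_eq {G : Type*} [AddCommGroup G] (c : G) (l : List G) :
    vs c l = (List.range l.length).map fun j => c + (l.take (j + 1)).sum := by
  induction l generalizing c with
  | nil => rfl
  | cons a l ih =>
    rw [vs, ih, List.length_cons, List.range_succ_eq_map, List.map_cons, List.map_map]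
    congr 1
    · simp
    · apply List.map_congr_left
      intro j _
      simp [add_assoc]

theorem dk_vs_dropLast {G : Type*} [AddCommGroup G] (c : G) (l : List G) :
    (vs c l).dropLast = (List.range (l.length - 1)).map fun j => c + (l.take (j + 1)).sum := by
  rw [dk_vs_eq, ← List.map_dropLast, List.dropLast_eq_take, List.length_range, List.take_range]
  congr 2
  omega

theorem dk_mem_dropLast {G : Type*} [AddCommGroup G] (c : G) (l : List G) (j : ℕ) (h1 : 1 ≤ j)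
    (h2 : j < l.length) : c + (l.take j).sum ∈ (vs c l).dropLast := by
  rw [dk_vs_dropLast, List.mem_map]
  refine ⟨j - 1, List.mem_range.2 (by omega), ?_⟩
  rw [Nat.sub_add_cancel h1]

theorem dk_inj_dropLast {G : Type*} [AddCommGroup G] (c : G) (l : List G)
    (h : (vs c l).dropLast.Nodup) (i j : ℕ) (hi1 : 1 ≤ i) (hi2 : i < l.length) (hj1 : 1 ≤ j)
    (hj2 : j < l.length) (hij : c + (l.take i).sum = c + (l.take j).sum) : i = j := by
  rw [dk_vs_dropLast] at h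
  have h1 := List.inj_on_of_nodup_map h (x := i - 1) (List.mem_range.2 (by omega)) (y := j - 1)
    (List.mem_range.2 (by omega)) (by
      simp only [Nat.sub_add_cancel hi1, Nat.sub_add_cancel hj1]
      exact hij)
  omega

/-- monotone breakpoints: every index below `b ν` lies in one interval -/
theorem dk_locate (b : ℕ → ℕ) (ν : ℕ) (h0 : b 0 = 0) (i : ℕ) (hi : i < b ν) :
    ∃ κ < ν, b κ ≤ i ∧ i < b (κ + 1) := by
  induction ν with
  | zero => omega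
  | succ ν ih =>
    by_cases h : i < b ν
    · obtain ⟨κ, h1, h2⟩ := ih h
      exact ⟨κ, by omega, h2⟩
    · exact ⟨ν, by omega, by omega, hi⟩

/-- **Pairs of indices.** -/
theorem dk_pairs {G : Type*} (ν k : ℕ) (s : ℕ → G) (b e : ℕ → ℕ) (S E : ℕ → G)
    (P : ℕ → Set G) (Q : Set G) (T : G) (h0 : b 0 = 0)
    (hb : ∀ κ < ν, b κ < e κ ∧ ((b (κ + 1) = e κ ∧ S (κ + 1) = E κ) ∨
      (b (κ + 1) = e κ + 1 ∧ S (κ + 1) ≠ E κ)))
    (hk : b ν < k) (hS : ∀ κ ≤ ν, s (b κ) = S κ) (hE : ∀ κ < ν, s (e κ) = E κ)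
    (hP : ∀ κ < ν, ∀ i, b κ < i → i < e κ → s i ∈ P κ)
    (hPi : ∀ κ < ν, ∀ i j, b κ < i → i < e κ → b κ < j → j < e κ → s i = s j → i = j)
    (hQ : ∀ i, b ν < i → i < k → s i ∈ Q)
    (hQi : ∀ i j, b ν < i → i < k → b ν < j → j < k → s i = s j → i = j)
    (hT : s k = T)
    (hSS : ∀ κ ≤ ν, ∀ κ' ≤ ν, S κ = S κ' → κ = κ')
    (hEE : ∀ κ < ν, ∀ κ' < ν, E κ = E κ' → κ = κ')
    (hSE : ∀ κ ≤ ν, ∀ κ' < ν, S κ = E κ' → κ = κ' + 1)
    (hPS : ∀ κ < ν, ∀ κ' ≤ ν, S κ' ∉ P κ) (hPE : ∀ κ < ν, ∀ κ' < ν, E κ' ∉ P κ)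
    (hPT : ∀ κ < ν, T ∉ P κ) (hTS : ∀ κ ≤ ν, 0 < κ → S κ ≠ T) (hTE : ∀ κ < ν, E κ ≠ T)
    (hQS : ∀ κ ≤ ν, S κ ∉ Q) (hQE : ∀ κ < ν, E κ ∉ Q) (hQT : T ∉ Q)
    (hQP : ∀ κ < ν, ∀ u ∈ Q, u ∉ P κ)
    (i j : ℕ) (hij : i < j) (hj : j ≤ k) (hne : ¬ (i = 0 ∧ j = k)) (heq : s i = s j) :
    ∃ κ κ', κ < κ' ∧ κ' < ν ∧ b κ < i ∧ i < b (κ + 1) ∧ b κ' < j ∧ j < b (κ' + 1) ∧
      s i ∈ P κ ∧ s i ∈ P κ' := by
  have hmono : ∀ κ κ', κ ≤ κ' → κ' ≤ ν → b κ ≤ b κ' := by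
    intro κ κ' h1 h2
    induction κ' with
    | zero =>
      have : κ = 0 := by omega
      rw [this]
    | succ κ' ih =>
      rcases Nat.lt_or_ge κ (κ' + 1) with h3 | h3
      · have h4 := ih (by omega) (by omega)
        have h5 := hb κ' (by omega)
        rcases h5 with ⟨h5, ⟨h6, _⟩ | ⟨h6, _⟩⟩ <;> omega
      · have : κ = κ' + 1 := by omega
        rw [this]
  -- classification
  have hcl : ∀ i ≤ k, (∃ κ ≤ ν, i = b κ) ∨ (∃ κ < ν, b κ < i ∧ i < e κ) ∨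
      (∃ κ < ν, i = e κ ∧ S (κ + 1) ≠ E κ) ∨ (b ν < i ∧ i < k) ∨ i = k := by
    intro i hi
    rcases Nat.lt_or_ge i (b ν) with h1 | h1
    · obtain ⟨κ, hκ, h2, h3⟩ := dk_locate b ν h0 i h1
      rcases Nat.lt_or_ge (b κ) i with h4 | h4
      · rcases Nat.lt_or_ge i (e κ) with h5 | h5
        · exact Or.inr (Or.inl ⟨κ, hκ, h4, h5⟩)
        · rcases hb κ hκ with ⟨h6, ⟨h7, _⟩ | ⟨h7, h8⟩⟩
          · omega
          · exact Or.inr (Or.inr (Or.inl ⟨κ, hκ, by omega, h8⟩))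
      · exact Or.inl ⟨κ, hκ.le, by omega⟩
    · rcases Nat.lt_or_ge (b ν) i with h2 | h2
      · rcases Nat.lt_or_ge i k with h3 | h3
        · exact Or.inr (Or.inr (Or.inr (Or.inl ⟨h2, h3⟩)))
        · exact Or.inr (Or.inr (Or.inr (Or.inr (by omega))))
      · exact Or.inl ⟨ν, le_rfl, by omega⟩
  rcases hcl i (by omega) with ⟨κ, hκ, rfl⟩ | ⟨κ, hκ, hi1, hi2⟩ | ⟨κ, hκ, rfl, hi1⟩ | ⟨hi1, hi2⟩ | rfl
  · -- i = b κ
    rw [hS κ hκ] at heq
    rcases hcl j hj with ⟨κ', hκ', rfl⟩ | ⟨κ', hκ', hj1, hj2⟩ | ⟨κ', hκ', rfl, hj1⟩ | ⟨hj1, hj2⟩ | rfl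
    · rw [hS κ' hκ'] at heq
      have := hSS κ hκ κ' hκ' heq
      subst this
      omega
    · exact absurd (heq ▸ hP κ' hκ' j hj1 hj2) (hPS κ' hκ' κ hκ)
    · rw [hE κ' hκ'] at heq
      have := hSE κ hκ κ' hκ' heq
      subst this
      exact absurd heq hj1
    · exact absurd (heq ▸ hQ j hj1 hj2) (hQS κ hκ)
    · rw [hT] at heq
      rcases Nat.eq_zero_or_pos κ with h | h
      · subst h
        exact absurd ⟨h0, rfl⟩ hne
      · exact absurd heq (hTS κ hκ h)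
  · -- i in a path
    have hi := hP κ hκ i hi1 hi2
    rcases hcl j hj with ⟨κ', hκ', rfl⟩ | ⟨κ', hκ', hj1, hj2⟩ | ⟨κ', hκ', rfl, hj1⟩ | ⟨hj1, hj2⟩ | rfl
    · rw [heq, hS κ' hκ'] at hi
      exact absurd hi (hPS κ hκ κ' hκ')
    · have hj' := hP κ' hκ' j hj1 hj2
      rw [← heq] at hj'
      have hbi : e κ ≤ b (κ + 1) := by
        rcases hb κ hκ with ⟨_, ⟨h7, _⟩ | ⟨h7, _⟩⟩ <;> omega
      have hbj : e κ' ≤ b (κ' + 1) := by
        rcases hb κ' hκ' with ⟨_, ⟨h7, _⟩ | ⟨h7, _⟩⟩ <;> omega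
      rcases lt_trichotomy κ κ' with h | h | h
      · exact ⟨κ, κ', h, hκ', hi1, by omega, hj1, by omega, hi, hj'⟩
      · subst h
        have := hPi κ hκ i j hi1 hi2 hj1 hj2 heq
        omega
      · have := hmono (κ' + 1) κ (by omega) (by omega)
        omega
    · rw [heq, hE κ' hκ'] at hi
      exact absurd hi (hPE κ hκ κ' hκ')
    · exact absurd hi (hQP κ hκ _ (heq ▸ hQ j hj1 hj2))
    · rw [heq, hT] at hi
      exact absurd hi (hPT κ hκ)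
  · -- i = e κ
    rw [hE κ hκ] at heq
    rcases hcl j hj with ⟨κ', hκ', rfl⟩ | ⟨κ', hκ', hj1, hj2⟩ | ⟨κ', hκ', rfl, hj1⟩ | ⟨hj1, hj2⟩ | rfl
    · rw [hS κ' hκ'] at heq
      have := hSE κ' hκ' κ hκ heq.symm
      subst this
      exact absurd heq.symm hi1
    · exact absurd (heq ▸ hP κ' hκ' j hj1 hj2) (hPE κ' hκ' κ hκ)
    · rw [hE κ' hκ'] at heq
      have := hEE κ hκ κ' hκ' heq
      subst this
      omega
    · exact absurd (heq ▸ hQ j hj1 hj2) (hQE κ hκ)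
    · rw [hT] at heq
      exact absurd heq (hTE κ hκ)
  · -- i in the tail
    have hi := hQ i hi1 hi2
    rcases hcl j hj with ⟨κ', hκ', rfl⟩ | ⟨κ', hκ', hj1, hj2⟩ | ⟨κ', hκ', rfl, hj1⟩ | ⟨hj1, hj2⟩ | rfl
    · rw [heq, hS κ' hκ'] at hi
      exact absurd hi (hQS κ' hκ')
    · have hj' := hP κ' hκ' j hj1 hj2
      rw [← heq] at hj'
      exact absurd hj' (hQP κ' hκ' _ hi)
    · rw [heq, hE κ' hκ'] at hi
      exact absurd hi (hQE κ' hκ')
    · have := hQi i j hi1 hi2 hj1 hj2 heq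
      omega
    · rw [heq, hT] at hi
      exact absurd hi hQT
  · omega

end Pool.Agent.SDN
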