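import Pool.Agent.Lib_helper8.SDN.DKa

/-!
Block DK (assembly of the dense theorem), part b: concatenation of the chains and the tail.
-/

namespace Pool.Agent.SDN

open Finset

/-- concatenation of the first `κ` chains -/
def dkpre {G : Type*} (e ys : ℕ → List G) : ℕ → List G
  | 0 => []
  | κ + 1 => dkpre e ys κ ++ (e κ ++ ys κ)

theorem dk_pre_split {G : Type*} (e ys : ℕ → List G) (ν κ : ℕ) (h : κ ≤ ν) :
    ∃ r, dkpre e ys ν = dkpre e ys κ ++ r := by
  induction ν with
  | zero =>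
    have : κ = 0 := by omega
    exact ⟨[], by rw [this]; simp⟩
  | succ ν ih =>
    rcases Nat.lt_or_ge κ (ν + 1) with h1 | h1
    · obtain ⟨r, hr⟩ := ih (by omega)
      exact ⟨r ++ (e ν ++ ys ν), by rw [dkpre, hr, List.append_assoc]⟩
    · have : κ = ν + 1 := by omega
      exact ⟨[], by rw [this]; simp⟩

theorem dk_pre_coe {G : Type*} (e ys : ℕ → List G) (ν : ℕ) :
    ((dkpre e ys ν : List G) : Multiset G) =
      ∑ κ ∈ range ν, (((e κ : List G) : Multiset G) + ((ys κ : List G) : Multiset G)) := by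
  induction ν with
  | zero => simp [dkpre]
  | succ ν ih =>
    rw [dkpre, Finset.sum_range_succ, ← ih, ← Multiset.coe_add, ← Multiset.coe_add]

theorem dk_lists {G : Type*} [AddCommGroup G] (ν : ℕ) (e ys : ℕ → List G) (lt : List G)
    (S E : ℕ → G) (P : ℕ → Set G) (W : Set G) (T : G) (hS0 : S 0 = 0)
    (he : ∀ κ < ν, e κ ≠ [] ∧ S κ + (e κ).sum = E κ ∧ (vs (S κ) (e κ)).dropLast.Nodup ∧
      ∀ u ∈ (vs (S κ) (e κ)).dropLast, u ∈ P κ)
    (hys : ∀ κ < ν, (ys κ = [] ∧ S (κ + 1) = E κ) ∨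
      ∃ y, ys κ = [y] ∧ S (κ + 1) = E κ + y ∧ S (κ + 1) ≠ E κ)
    (hlt1 : (vs (S ν) lt).Nodup) (hlt2 : vs (S ν) lt = (vs (S ν) lt).dropLast ++ [T])
    (hlt3 : ∀ u ∈ (vs (S ν) lt).dropLast, u ∉ W ∧ u ≠ T)
    (hWP : ∀ κ < ν, P κ ⊆ W) (hWS : ∀ κ ≤ ν, S κ ∈ W) (hWE : ∀ κ < ν, E κ ∈ W)
    (hSS : ∀ κ ≤ ν, ∀ κ' ≤ ν, S κ = S κ' → κ = κ')
    (hEE : ∀ κ < ν, ∀ κ' < ν, E κ = E κ' → κ = κ')
    (hSE : ∀ κ ≤ ν, ∀ κ' < ν, S κ = E κ' → κ = κ' + 1)
    (hPS : ∀ κ < ν, ∀ κ' ≤ ν, S κ' ∉ P κ) (hPE : ∀ κ < ν, ∀ κ' < ν, E κ' ∉ P κ)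
    (hPT : ∀ κ < ν, T ∉ P κ) (hTS : ∀ κ ≤ ν, 0 < κ → S κ ≠ T) (hTE : ∀ κ < ν, E κ ≠ T) :
    ∃ (l : List G) (b : ℕ → ℕ), (l : Multiset G) =
        (∑ κ ∈ range ν, (((e κ : List G) : Multiset G) + ((ys κ : List G) : Multiset G))) +
          (lt : Multiset G) ∧
      b 0 = 0 ∧ (∀ κ < ν, b (κ + 1) = b κ + ((e κ).length + (ys κ).length)) ∧
      l.length = b ν + lt.length ∧
      ∀ i j, i < j → j ≤ l.length → ¬ (i = 0 ∧ j = l.length) →
        (l.take i).sum = (l.take j).sum →
        ∃ κ κ', κ < κ' ∧ κ' < ν ∧ b κ < i ∧ i < b (κ + 1) ∧ b κ' < j ∧ j < b (κ' + 1) ∧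
          (l.take i).sum ∈ P κ ∧ (l.take i).sum ∈ P κ' := by
  classical
  set l : List G := dkpre e ys ν ++ lt with hl
  set b : ℕ → ℕ := fun κ => (dkpre e ys κ).length with hb
  -- sums of the prefixes
  have hsum : ∀ κ ≤ ν, (dkpre e ys κ).sum = S κ := by
    intro κ
    induction κ with
    | zero => intro _; simp [dkpre, hS0]
    | succ κ ih =>
      intro hκ
      rw [dkpre, List.sum_append, List.sum_append, ih (by omega), ← add_assoc,
        (he κ (by omega)).2.1]
      rcases hys κ (by omega) with ⟨h1, h2⟩ | ⟨y, h1, h2, _⟩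
      · rw [h1, h2]; simp
      · rw [h1, h2]; simp
  have hsplit : ∀ κ < ν, ∃ r, l = dkpre e ys κ ++ (e κ ++ (ys κ ++ r)) := by
    intro κ hκ
    obtain ⟨r, hr⟩ := dk_pre_split e ys ν (κ + 1) (by omega)
    refine ⟨r ++ lt, ?_⟩
    rw [hl, hr, dkpre]
    simp only [List.append_assoc]
  have htake : ∀ κ < ν, ∀ i ≤ (e κ).length, (l.take (b κ + i)).sum =
      S κ + ((e κ).take i).sum := by
    intro κ hκ i hi
    obtain ⟨r, hr⟩ := hsplit κ hκ
    rw [hr, hb, List.take_length_add_append, List.sum_append, hsum κ hκ.le,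
      List.take_append_of_le_length hi]
  have htaket : ∀ i, (l.take (b ν + i)).sum = S ν + (lt.take i).sum := by
    intro i
    rw [hl, hb, List.take_length_add_append, List.sum_append, hsum ν le_rfl]
  have hlen : l.length = b ν + lt.length := by rw [hl, List.length_append]
  have hbs : ∀ κ, b (κ + 1) = b κ + ((e κ).length + (ys κ).length) := by
    intro κ
    simp only [hb, dkpre, List.length_append]
  have hltne : lt ≠ [] := by
    rintro rfl
    simp [vs] at hlt2
  have hltpos : 0 < lt.length := List.length_pos_iff.2 hltne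
  refine ⟨l, b, ?_, rfl, fun κ _ => hbs κ, hlen, ?_⟩
  · rw [hl, ← Multiset.coe_add, dk_pre_coe]
  intro i j hij hj hne heq
  refine dk_pairs ν l.length (fun i => (l.take i).sum) b (fun κ => b κ + (e κ).length) S E P
    {u | u ∉ W ∧ u ≠ T} T rfl ?_ (by omega) ?_ ?_ ?_ ?_ ?_ ?_ ?_ hSS hEE hSE hPS hPE hPT hTS hTE
    ?_ ?_ ?_ ?_ i j hij hj hne heq
  · intro κ hκ
    have h1 : 0 < (e κ).length := List.length_pos_iff.2 (he κ hκ).1
    refine ⟨by omega, ?_⟩
    rcases hys κ hκ with ⟨h2, h3⟩ | ⟨y, h2, _, h3⟩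
    · left
      refine ⟨?_, h3⟩
      rw [hbs, h2, List.length_nil, add_zero]
    · right
      refine ⟨?_, h3⟩
      rw [hbs, h2, List.length_singleton, add_assoc]
  · intro κ hκ
    rcases Nat.lt_or_ge κ ν with h1 | h1
    · have := htake κ h1 0 (Nat.zero_le _)
      simpa using this
    · have : κ = ν := by omega
      subst this
      have := htaket 0
      simpa using this
  · intro κ hκ
    have := htake κ hκ (e κ).length le_rfl
    rw [List.take_length, (he κ hκ).2.1] at this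
    exact this
  · intro κ hκ i h1 h2
    have h3 := htake κ hκ (i - b κ) (by omega)
    rw [show b κ + (i - b κ) = i by omega] at h3
    show (l.take i).sum ∈ P κ
    rw [h3]
    exact (he κ hκ).2.2.2 _ (dk_mem_dropLast _ _ _ (by omega) (by omega))
  · intro κ hκ i j h1 h2 h3 h4 h5
    have h6 := htake κ hκ (i - b κ) (by omega)
    rw [show b κ + (i - b κ) = i by omega] at h6
    have h7 := htake κ hκ (j - b κ) (by omega)
    rw [show b κ + (j - b κ) = j by omega] at h7
    have h8 := dk_inj_dropLast (S κ) (e κ) (he κ hκ).2.2.1 (i - b κ) (j - b κ) (by omega)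
      (by omega) (by omega) (by omega) (by rw [← h6, ← h7]; exact h5)
    omega
  · intro i h1 h2
    have h3 := htaket (i - b ν)
    rw [show b ν + (i - b ν) = i by omega] at h3
    show (l.take i).sum ∉ W ∧ (l.take i).sum ≠ T
    rw [h3]
    exact hlt3 _ (dk_mem_dropLast _ _ _ (by omega) (by omega))
  · intro i j h1 h2 h3 h4 h5
    have h6 := htaket (i - b ν)
    rw [show b ν + (i - b ν) = i by omega] at h6
    have h7 := htaket (j - b ν)
    rw [show b ν + (j - b ν) = j by omega] at h7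
    have h9 : (vs (S ν) lt).dropLast.Nodup := hlt1.sublist (List.dropLast_sublist _)
    have h8 := dk_inj_dropLast (S ν) lt h9 (i - b ν) (j - b ν) (by omega)
      (by omega) (by omega) (by omega) (by rw [← h6, ← h7]; exact h5)
    omega
  · have h3 := htaket lt.length
    rw [← hlen, List.take_length, List.take_length] at h3
    show (l.take l.length).sum = T
    rw [List.take_length, h3]
    -- the last vertex
    have h4 : vs (S ν) lt = (vs (S ν) lt).dropLast ++ [S ν + lt.sum] := by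
      conv_lhs => rw [dk_vs_eq]
      rw [dk_vs_dropLast]
      have h5 : lt.length = (lt.length - 1) + 1 := by omega
      conv_lhs => rw [h5, List.range_succ, List.map_append]
      rw [List.map_singleton, ← h5, List.take_length]
    have h6 := h4.symm.trans hlt2
    have h7 := List.append_cancel_left h6
    simpa using h7
  · intro κ hκ h
    exact h.1 (hWS κ hκ)
  · intro κ hκ h
    exact h.1 (hWE κ hκ)
  · intro h
    exact h.2 rfl
  · intro κ hκ u hu hP
    exact hu.1 (hWP κ hκ hP)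

end Pool.Agent.SDN
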