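import Pool.Agent.Lib_helper8.SDN.DKb
import Pool.Agent.Lib_helper26.SDN.VX
import Pool.Agent.Lib_helper26.SDN.TR
import Pool.Agent.Lib_helper26.SDN.LO
import Pool.Agent.Lib_helper26.SDN.QS

/-!
Block DK (assembly of the dense theorem), part c: data of the assembly, content of the lists.
-/

namespace Pool.Agent.SDN

open Finset

/-- coset representatives -/
def dkC {G : Type*} [AddCommGroup G] (y : ℕ → G) (κ : ℕ) : G := ∑ l ∈ range κ, y l

/-- connecting steps -/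
noncomputable def dky {G : Type*} [AddCommGroup G] (y : ℕ → G) (κ : ℕ) : List G :=
  open Classical in if y κ = 0 then [] else [y κ]

/-- Data of the assembly. -/
structure DKD {G V₀ : Type*} [AddCommGroup G] [AddCommGroup V₀] [Fintype V₀] (A : Finset G)
    (H V : AddSubgroup G) (x : G) (φ : V₀ →+ G) (ν N m s : ℕ) (y : ℕ → G) (w : ℕ → V₀)
    (T₀ : V₀) (L : Fin ν → Finset (Fin N)) (B₀ : Finset V₀) (Z : Fin s → Fin m → V₀)
    (S : Finset (Fin s)) (lab : V₀ → Fin N) (wy : Finset V₀)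
    (Tm : Fin ν → List (V₀ × Option (Fin s))) : Prop where
  h0 : (0 : G) ∉ A
  hν : 0 < ν
  hm : 3 ≤ m
  hφ : Function.Injective φ
  hr : Set.range φ = (V : Set G)
  hy1 : ∀ l, y l = 0 ∨ (y l ∈ A ∧ y l - x ∉ H)
  hy2 : ∀ l l', y l ≠ 0 → y l = y l' → l = l'
  hC : ∀ κ ≤ ν, ∀ κ' ≤ ν, dkC y κ - dkC y κ' ∈ V → dkC y κ = dkC y κ'
  hw0 : w 0 = 0
  hw : ∀ i ≤ ν, ∀ j ≤ ν, w i = w j → i = j
  hwT : ∀ i ≤ ν, 0 < i → w i ≠ T₀
  hT₀ : ∀ κ ≤ ν, ∑ a ∈ A, a - dkC y κ ∈ V → ∑ a ∈ A, a = dkC y κ + φ T₀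
  hB₀ : ∀ b, b ∈ B₀ ↔ φ b ∈ A ∧ φ b - x ∈ H
  hwy : ∀ i ≤ ν, w i ∈ wy
  hwyT : T₀ ∈ wy
  hZ : Fam B₀ 0 Z
  c1 : ∀ κ : Fin ν, Tm κ ≠ [] ∧ (cl (Tm κ)).sum = w (κ + 1) - w κ ∧
    (rv Z (w κ) (Tm κ)).dropLast.Nodup ∧
    ∀ u ∈ (rv Z (w κ) (Tm κ)).dropLast, (lab u ∈ L κ ∨ ((lab u : Fin N) : ℕ) = 1) ∧ u ∉ wy
  c2 : ∀ κ κ' : Fin ν, κ ≠ κ' → ∀ u ∈ (rv Z (w κ) (Tm κ)).dropLast,
    u ∈ (rv Z (w κ') (Tm κ')).dropLast → ((lab u : Fin N) : ℕ) ≠ 1
  c3 : ∀ κ : Fin ν, (cl (Tm κ)).Nodup ∧ (sk (Tm κ)).Nodup ∧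
    ∀ a ∈ cl (Tm κ), a ∈ B₀ ∧ ∀ z i, a ≠ Z z i
  c4 : ∀ κ κ' : Fin ν, κ ≠ κ' → List.Disjoint (cl (Tm κ)) (cl (Tm κ')) ∧
    List.Disjoint (sk (Tm κ)) (sk (Tm κ'))
  c5 : ∀ z, (∃ κ, z ∈ sk (Tm κ)) ↔ z ∈ S

theorem dk_count_sum {G ι : Type*} [DecidableEq G] (s : Finset ι) (M : ι → Multiset G)
    (hnd : ∀ i ∈ s, (M i).Nodup) (hdis : ∀ i ∈ s, ∀ j ∈ s, i ≠ j → ∀ a ∈ M i, a ∉ M j) (a : G)
    [Decidable (∃ i ∈ s, a ∈ M i)] :
    Multiset.count a (∑ i ∈ s, M i) = if ∃ i ∈ s, a ∈ M i then 1 else 0 := by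
  classical
  rw [Multiset.count_sum']
  by_cases h : ∃ i ∈ s, a ∈ M i
  · rw [if_pos h]
    obtain ⟨i, hi, ha⟩ := h
    rw [Finset.sum_eq_single i]
    · exact Multiset.count_eq_one_of_mem (hnd i hi) ha
    · intro j hj hji
      exact Multiset.count_eq_zero_of_notMem (hdis i hi j hj (Ne.symm hji) a ha)
    · intro h
      exact absurd hi h
  · rw [if_neg h]
    refine Finset.sum_eq_zero fun i hi => Multiset.count_eq_zero_of_notMem fun ha => h ⟨i, hi, ha⟩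

theorem dk_P_full {G : Type*} [AddCommGroup G] {m : ℕ} (y : Fin m → G) :
    P y m = (List.ofFn y).sum := by
  unfold P
  rw [List.sum_ofFn]
  exact Finset.sum_congr rfl fun i _ => if_pos i.2

section

variable {G V₀ : Type*} [AddCommGroup G] [AddCommGroup V₀] [Fintype V₀] {A : Finset G}
    {H V : AddSubgroup G} {x : G} {φ : V₀ →+ G} {ν N m s : ℕ} {y : ℕ → G} {w : ℕ → V₀}
    {T₀ : V₀} {L : Fin ν → Finset (Fin N)} {B₀ : Finset V₀} {Z : Fin s → Fin m → V₀}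
    {S : Finset (Fin s)} {lab : V₀ → Fin N} {wy : Finset V₀}
    {Tm : Fin ν → List (V₀ × Option (Fin s))}

/-- entries of the stock sets in `G` -/
def dkE (φ : V₀ →+ G) (Z : Fin s → Fin m → V₀) (z : Fin s) : List G :=
  List.ofFn fun i => φ (Z z i)

/-- leftovers -/
noncomputable def dkΛ (A : Finset G) (φ : V₀ →+ G) (y : ℕ → G) (Z : Fin s → Fin m → V₀)
    (S : Finset (Fin s)) (Tm : Fin ν → List (V₀ × Option (Fin s))) : Finset G :=
  open Classical in A.filter fun a => (∀ κ, a ∉ (cl (Tm κ)).map φ) ∧ (∀ z ∈ S, a ∉ dkE φ Z z) ∧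
    ∀ κ < ν, y κ ≠ a

/-- content -/
theorem DKD.content (h : DKD A H V x φ ν N m s y w T₀ L B₀ Z S lab wy Tm) :
    A.val = ∑ κ : Fin ν, (((cl (Tm κ)).map φ : List G) : Multiset G) +
      ∑ z ∈ S, ((dkE φ Z z : List G) : Multiset G) +
      ∑ κ ∈ range ν, ((dky y κ : List G) : Multiset G) + (dkΛ A φ y Z S Tm).val := by
  classical
  have hcl : ∀ κ : Fin ν, ((cl (Tm κ)).map φ).Nodup := fun κ => (h.c3 κ).1.map h.hφ
  have hentry : ∀ z i, φ (Z z i) ∈ A ∧ φ (Z z i) - x ∈ H := fun z i =>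
    (h.hB₀ _).1 (h.hZ.mem z i)
  have hE : ∀ z, (dkE φ Z z).Nodup := fun z => by
    unfold dkE
    rw [List.nodup_ofFn]
    intro i j hij
    exact (h.hZ.inj z z i j (h.hφ hij)).2
  have hEm : ∀ z a, a ∈ dkE φ Z z ↔ ∃ i, φ (Z z i) = a := fun z a => by
    unfold dkE
    rw [List.mem_ofFn]
  have hclm : ∀ (κ : Fin ν) a, a ∈ (cl (Tm κ)).map φ → a ∈ A ∧ a - x ∈ H ∧
      ∀ z, a ∉ dkE φ Z z := by
    intro κ a ha
    obtain ⟨c, hc, rfl⟩ := List.mem_map.1 ha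
    have h1 := (h.c3 κ).2.2 c hc
    have h2 := (h.hB₀ c).1 h1.1
    refine ⟨h2.1, h2.2, fun z hz => ?_⟩
    obtain ⟨i, hi⟩ := (hEm z _).1 hz
    exact h1.2 z i (h.hφ hi.symm)
  have hym : ∀ κ a, a ∈ dky y κ ↔ a = y κ ∧ y κ ≠ 0 := by
    intro κ a
    unfold dky
    split_ifs with h1
    · simp [h1]
    · simp [h1]
  ext a
  rw [Multiset.count_add, Multiset.count_add, Multiset.count_add]
  rw [dk_count_sum (univ : Finset (Fin ν)) (fun κ => (((cl (Tm κ)).map φ : List G) : Multiset G))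
    (fun κ _ => Multiset.coe_nodup.2 (hcl κ)) (by
      intro κ _ κ' _ hne a ha ha'
      rw [Multiset.mem_coe] at ha ha'
      obtain ⟨c, hc, rfl⟩ := List.mem_map.1 ha
      obtain ⟨c', hc', he⟩ := List.mem_map.1 ha'
      rw [h.hφ he] at hc'
      exact (h.c4 κ κ' hne).1 hc hc') a]
  rw [dk_count_sum S (fun z => ((dkE φ Z z : List G) : Multiset G))
    (fun z _ => Multiset.coe_nodup.2 (hE z)) (by
      intro z _ z' _ hne a ha ha'
      rw [Multiset.mem_coe, hEm] at ha ha'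
      obtain ⟨i, hi⟩ := ha
      obtain ⟨i', hi'⟩ := ha'
      exact hne (h.hZ.inj z z' i i' (h.hφ (hi.trans hi'.symm))).1) a]
  rw [dk_count_sum (range ν) (fun κ => ((dky y κ : List G) : Multiset G))
    (fun κ _ => Multiset.coe_nodup.2 (by unfold dky; split_ifs <;> simp)) (by
      intro κ _ κ' _ hne a ha ha'
      rw [Multiset.mem_coe, hym] at ha ha'
      exact hne (h.hy2 κ κ' ha.2 (ha.1.symm.trans ha'.1))) a]
  rw [Multiset.count_eq_of_nodup A.nodup, Multiset.count_eq_of_nodup (dkΛ A φ y Z S Tm).nodup]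
  simp only [Finset.mem_val, Multiset.mem_coe, Finset.mem_univ, true_and]
  by_cases haA : a ∈ A
  · rw [if_pos haA]
    by_cases h1 : ∃ κ, a ∈ (cl (Tm κ)).map φ
    · obtain ⟨κ, hκ⟩ := h1
      have h2 := hclm κ a hκ
      rw [if_pos ⟨κ, hκ⟩, if_neg (by rintro ⟨z, _, hz⟩; exact h2.2.2 z hz), if_neg (by
        rintro ⟨κ', _, hκ'⟩
        rw [hym] at hκ'
        rcases h.hy1 κ' with h3 | h3
        · exact hκ'.2 h3
        · exact h3.2 (hκ'.1 ▸ h2.2.1)), if_neg (by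
        intro h3
        exact (mem_filter.1 h3).2.1 κ hκ)]
    · rw [if_neg h1]
      by_cases h2 : ∃ z ∈ S, a ∈ dkE φ Z z
      · rw [if_pos h2]
        obtain ⟨z, hzS, hz⟩ := h2
        obtain ⟨i, hi⟩ := (hEm z a).1 hz
        rw [if_neg (by
          rintro ⟨κ', _, hκ'⟩
          rw [hym] at hκ'
          rcases h.hy1 κ' with h3 | h3
          · exact hκ'.2 h3
          · have h4 := (hentry z i).2
            rw [hi, hκ'.1] at h4
            exact h3.2 h4), if_neg (by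
          intro h3
          exact (mem_filter.1 h3).2.2.1 z hzS hz)]
      · rw [if_neg h2]
        by_cases h3 : ∃ κ ∈ range ν, a ∈ dky y κ
        · rw [if_pos h3]
          obtain ⟨κ, hκ, hay⟩ := h3
          rw [hym] at hay
          rw [if_neg (by
            intro h4
            exact (mem_filter.1 h4).2.2.2 κ (mem_range.1 hκ) hay.1.symm)]
        · rw [if_neg h3, if_pos]
          refine mem_filter.2 ⟨haA, fun κ hκ => h1 ⟨κ, hκ⟩, fun z hz hz' => h2 ⟨z, hz, hz'⟩,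
            fun κ hκ hy => h3 ⟨κ, mem_range.2 hκ, ?_⟩⟩
          rw [hym]
          exact ⟨hy.symm, fun h4 => h.h0 (h4 ▸ hy ▸ haA)⟩
  · rw [if_neg haA, if_neg (by rintro ⟨κ, hκ⟩; exact haA (hclm κ a hκ).1), if_neg (by
      rintro ⟨z, _, hz⟩
      obtain ⟨i, hi⟩ := (hEm z a).1 hz
      exact haA (hi ▸ (hentry z i).1)), if_neg (by
      rintro ⟨κ, _, hκ⟩
      rw [hym] at hκ
      rcases h.hy1 κ with h3 | h3
      · exact hκ.2 h3
      · exact haA (hκ.1 ▸ h3.1)), if_neg (by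
      intro h3
      exact haA (mem_filter.1 h3).1)]

theorem DKD.sum_eq (h : DKD A H V x φ ν N m s y w T₀ L B₀ Z S lab wy Tm) :
    dkC y ν + φ (w ν) + (dkΛ A φ y Z S Tm).toList.sum = ∑ a ∈ A, a := by
  classical
  have h1 : ∑ a ∈ A, a = A.val.sum := by
    rw [Finset.sum_eq_multiset_sum, Multiset.map_id']
  rw [h1, h.content, Multiset.sum_add, Multiset.sum_add, Multiset.sum_add]
  have hsum : ∀ {ι : Type _} (s : Finset ι) (M : ι → Multiset G),
      (∑ i ∈ s, M i).sum = ∑ i ∈ s, (M i).sum := by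
    intro ι s M
    exact map_sum (Multiset.sumAddMonoidHom : Multiset G →+ G) M s
  rw [hsum, hsum, hsum]
  have e1 : ∑ κ : Fin ν, (((cl (Tm κ)).map φ : List G) : Multiset G).sum = φ (w ν) := by
    have e2 : ∀ κ : Fin ν, (((cl (Tm κ)).map φ : List G) : Multiset G).sum =
        φ (w (κ + 1)) - φ (w κ) := by
      intro κ
      rw [Multiset.sum_coe, ← map_list_sum, (h.c1 κ).2.1, map_sub]
    rw [Finset.sum_congr rfl fun κ _ => e2 κ,
      ← Finset.sum_range (fun κ => φ (w (κ + 1)) - φ (w κ)), Finset.sum_range_sub (fun i => φ (w i)) ν, h.hw0, map_zero,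
      sub_zero]
  have e3 : ∑ z ∈ S, ((dkE φ Z z : List G) : Multiset G).sum = 0 := by
    refine Finset.sum_eq_zero fun z _ => ?_
    have e4 := h.hZ.tot z
    rw [dk_P_full] at e4
    rw [Multiset.sum_coe]
    unfold dkE
    have e5 : (List.ofFn fun i => φ (Z z i)) = (List.ofFn (Z z)).map φ := by
      rw [List.map_ofFn]
      rfl
    rw [e5, ← map_list_sum, e4, map_zero]
  have e6 : ∑ κ ∈ range ν, ((dky y κ : List G) : Multiset G).sum = dkC y ν := by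
    unfold dkC
    refine Finset.sum_congr rfl fun κ _ => ?_
    unfold dky
    split_ifs with h1
    · simp [h1]
    · simp
  have e7 : (dkΛ A φ y Z S Tm).toList.sum = (dkΛ A φ y Z S Tm).val.sum := by
    rw [← Multiset.sum_coe, Finset.coe_toList]
  rw [e1, e3, e6, e7]
  abel

end

end Pool.Agent.SDN
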