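import Pool.Agent.Lib_helper8.SDN.DKc

/-!
Block DK (assembly of the dense theorem), part d: chains and tail in `G`.
-/

namespace Pool.Agent.SDN

open Finset

section

variable {G V₀ : Type*} [AddCommGroup G] [AddCommGroup V₀] [Fintype V₀] {A : Finset G}
    {H V : AddSubgroup G} {x : G} {φ : V₀ →+ G} {ν N m s : ℕ} {y : ℕ → G} {w : ℕ → V₀}
    {T₀ : V₀} {L : Fin ν → Finset (Fin N)} {B₀ : Finset V₀} {Z : Fin s → Fin m → V₀}
    {S : Finset (Fin s)} {lab : V₀ → Fin N} {wy : Finset V₀}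
    {Tm : Fin ν → List (V₀ × Option (Fin s))}

theorem DKD.coset (h : DKD A H V x φ ν N m s y w T₀ L B₀ Z S lab wy Tm) {κ κ' : ℕ} (hκ : κ ≤ ν)
    (hκ' : κ' ≤ ν) {u u' : V₀} (he : dkC y κ + φ u = dkC y κ' + φ u') :
    dkC y κ = dkC y κ' ∧ u = u' := by
  have h1 : dkC y κ - dkC y κ' = φ (u' - u) := by
    rw [map_sub, sub_eq_sub_iff_add_eq_add, he, add_comm]
  have h2 : dkC y κ - dkC y κ' ∈ V := by
    rw [h1, ← SetLike.mem_coe, ← h.hr]
    exact ⟨_, rfl⟩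
  have h3 := h.hC κ hκ κ' hκ' h2
  refine ⟨h3, h.hφ ?_⟩
  rw [h3] at he
  exact add_left_cancel he

/-- start vertices -/
def dkS (φ : V₀ →+ G) (y : ℕ → G) (w : ℕ → V₀) (κ : ℕ) : G := dkC y κ + φ (w κ)

/-- end vertices -/
def dkEnd (φ : V₀ →+ G) (y : ℕ → G) (w : ℕ → V₀) (κ : ℕ) : G := dkC y κ + φ (w (κ + 1))

/-- path vertices -/
def dkP (φ : V₀ →+ G) (y : ℕ → G) (w : ℕ → V₀) (Z : Fin s → Fin m → V₀)
    (Tm : Fin ν → List (V₀ × Option (Fin s))) (κ : ℕ) : Set G :=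
  {g | ∃ h : κ < ν, ∃ u ∈ (rv Z (w κ) (Tm ⟨κ, h⟩)).dropLast, g = dkC y κ + φ u}

/-- all vertices forbidden for the tail -/
noncomputable def dkW (φ : V₀ →+ G) (y : ℕ → G) (w : ℕ → V₀) (Z : Fin s → Fin m → V₀)
    (Tm : Fin ν → List (V₀ × Option (Fin s))) : Finset G :=
  open Classical in
  (univ.biUnion fun κ : Fin ν =>
    ((rv Z (w κ) (Tm κ)).dropLast.map fun u => dkC y κ + φ u).toFinset) ∪
    ((range (ν + 1) ×ˢ range (ν + 1)).image fun p => dkC y p.1 + φ (w p.2))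

theorem dk_mem_W (φ : V₀ →+ G) (y : ℕ → G) (w : ℕ → V₀) (Z : Fin s → Fin m → V₀)
    (Tm : Fin ν → List (V₀ × Option (Fin s))) (g : G) : g ∈ dkW φ y w Z Tm ↔
      (∃ κ : Fin ν, ∃ u ∈ (rv Z (w κ) (Tm κ)).dropLast, dkC y κ + φ u = g) ∨
      ∃ κ ≤ ν, ∃ i ≤ ν, dkC y κ + φ (w i) = g := by
  classical
  unfold dkW
  rw [mem_union, mem_biUnion, mem_image]
  apply or_congr
  · constructor
    · rintro ⟨κ, _, h⟩
      rw [List.mem_toFinset, List.mem_map] at h
      obtain ⟨u, hu, rfl⟩ := h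
      exact ⟨κ, u, hu, rfl⟩
    · rintro ⟨κ, u, hu, rfl⟩
      refine ⟨κ, mem_univ _, ?_⟩
      rw [List.mem_toFinset, List.mem_map]
      exact ⟨u, hu, rfl⟩
  · constructor
    · rintro ⟨p, hp, rfl⟩
      rw [mem_product, mem_range, mem_range] at hp
      exact ⟨p.1, by omega, p.2, by omega, rfl⟩
    · rintro ⟨κ, hκ, i, hi, rfl⟩
      refine ⟨(κ, i), ?_, rfl⟩
      rw [mem_product, mem_range, mem_range]
      exact ⟨by simp only; omega, by simp only; omega⟩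

/-- steps of the chains -/
noncomputable def dke (φ : V₀ →+ G) (Z : Fin s → Fin m → V₀) (U : Finset (Fin s))
    (Tm : Fin ν → List (V₀ × Option (Fin s))) (κ : ℕ) : List G :=
  if h : κ < ν then (ex Z U (Tm ⟨κ, h⟩)).map φ else []

theorem dk_vs (φ : V₀ →+ G) (C : G) (c : V₀) (l : List V₀) :
    vs (C + φ c) (l.map φ) = (vs c l).map fun u => C + φ u := by
  rw [add_comm, vs_translate, vs_map, List.map_map]
  apply List.map_congr_left
  intro u _
  simp [add_comm]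

theorem dk_sublist {α : Type*} {l₁ l₂ : List α} {a b : α} (h : List.Sublist (l₁ ++ [a]) (l₂ ++ [b])) :
    List.Sublist l₁ l₂ := by
  have h1 := h.reverse
  simp only [List.reverse_append, List.reverse_cons, List.reverse_nil, List.nil_append,
    List.singleton_append] at h1
  have h2 : List.Sublist l₁.reverse l₂.reverse := by
    cases h1 with
    | cons _ h3 => exact (List.sublist_cons_self _ _).trans h3
    | cons_cons _ h3 => exact h3
  simpa using h2.reverse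

theorem dk_ex_ne {s m : ℕ} (Z : Fin s → Fin m → V₀) (U : Finset (Fin s))
    (L : List (V₀ × Option (Fin s))) (hL : L ≠ []) : ex Z U L ≠ [] := by
  intro h
  have h1 := (ex_perm Z U L).length_eq
  rw [h, List.length_nil, List.length_append] at h1
  unfold cl at h1
  rw [List.length_map] at h1
  have h2 := List.length_pos_iff.2 hL
  omega

theorem DKD.interior (h : DKD A H V x φ ν N m s y w T₀ L B₀ Z S lab wy Tm)
    (U : Finset (Fin s)) (κ : ℕ) (hκ : κ < ν) :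
    (vs (w κ) (ex Z U (Tm ⟨κ, hκ⟩))).dropLast.Sublist
      (rv Z (w κ) (Tm ⟨κ, hκ⟩)).dropLast := by
  have h1 := vs_ex (by have := h.hm; omega) Z U h.hZ.tot (w κ) (Tm ⟨κ, hκ⟩)
  have h2 := vs_last (w κ) (ex Z U (Tm ⟨κ, hκ⟩)) (dk_ex_ne Z U _ (h.c1 ⟨κ, hκ⟩).1)
  have h3 := rv_last Z (w κ) (Tm ⟨κ, hκ⟩) (h.c1 ⟨κ, hκ⟩).1
  rw [h2, h3] at h1
  exact dk_sublist h1

theorem DKD.he (h : DKD A H V x φ ν N m s y w T₀ L B₀ Z S lab wy Tm)
    (U : Finset (Fin s)) (κ : ℕ) (hκ : κ < ν) :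
    dke φ Z U Tm κ ≠ [] ∧ dkS φ y w κ + (dke φ Z U Tm κ).sum = dkEnd φ y w κ ∧
      (vs (dkS φ y w κ) (dke φ Z U Tm κ)).dropLast.Nodup ∧
      ∀ u ∈ (vs (dkS φ y w κ) (dke φ Z U Tm κ)).dropLast, u ∈ dkP φ y w Z Tm κ := by
  have h1 := h.interior U κ hκ
  have hv : (vs (dkS φ y w κ) (dke φ Z U Tm κ)).dropLast =
      ((vs (w κ) (ex Z U (Tm ⟨κ, hκ⟩))).dropLast).map fun u => dkC y κ + φ u := by
    unfold dkS dke
    rw [dif_pos hκ, dk_vs, List.map_dropLast]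
  refine ⟨?_, ?_, ?_, ?_⟩
  · unfold dke
    rw [dif_pos hκ]
    intro h2
    rw [List.map_eq_nil_iff] at h2
    exact dk_ex_ne Z U _ (h.c1 ⟨κ, hκ⟩).1 h2
  · unfold dke dkS dkEnd
    rw [dif_pos hκ, ← map_list_sum, ex_sum Z U h.hZ.tot, (h.c1 ⟨κ, hκ⟩).2.1]
    show dkC y κ + φ (w κ) + φ (w (κ + 1) - w κ) = _
    rw [map_sub]
    abel
  · rw [hv]
    refine List.Nodup.map ?_ ((h.c1 ⟨κ, hκ⟩).2.2.1.sublist h1)
    intro u u' huu
    exact h.hφ (add_left_cancel huu)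
  · intro u hu
    rw [hv, List.mem_map] at hu
    obtain ⟨u', hu', rfl⟩ := hu
    exact ⟨hκ, u', h1.subset hu', rfl⟩

theorem DKD.hys (_h : DKD A H V x φ ν N m s y w T₀ L B₀ Z S lab wy Tm) (κ : ℕ) :
    (dky y κ = [] ∧ dkS φ y w (κ + 1) = dkEnd φ y w κ) ∨
      ∃ y', dky y κ = [y'] ∧ dkS φ y w (κ + 1) = dkEnd φ y w κ + y' ∧
        dkS φ y w (κ + 1) ≠ dkEnd φ y w κ := by
  have h1 : dkS φ y w (κ + 1) = dkEnd φ y w κ + y κ := by
    unfold dkS dkEnd dkC
    rw [Finset.sum_range_succ]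
    abel
  unfold dky
  by_cases h2 : y κ = 0
  · left
    rw [if_pos h2, h1, h2, add_zero]
    exact ⟨rfl, rfl⟩
  · right
    rw [if_neg h2]
    refine ⟨y κ, rfl, h1, fun h3 => h2 ?_⟩
    rw [h1] at h3
    exact left_eq_add.1 h3.symm

/-- **Lists of the assembly.** -/
theorem DKD.lists (h : DKD A H V x φ ν N m s y w T₀ L B₀ Z S lab wy Tm)
    (U : Finset (Fin s)) (hU : U ⊆ S) (lt : List G)
    (hlt : lt.Perm ((dkΛ A φ y Z S Tm).toList ++ U.toList.flatMap fun z => dkE φ Z z))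
    (hlt1 : (vs (dkS φ y w ν) lt).Nodup)
    (hlt2 : vs (dkS φ y w ν) lt = (vs (dkS φ y w ν) lt).dropLast ++ [∑ a ∈ A, a])
    (hlt3 : ∀ u ∈ (vs (dkS φ y w ν) lt).dropLast, u ∉ dkW φ y w Z Tm ∧ u ≠ ∑ a ∈ A, a) :
    ∃ (l : List G) (b : ℕ → ℕ), (l : Multiset G) = A.val ∧ b 0 = 0 ∧
      (∀ κ < ν, b (κ + 1) = b κ + ((dke φ Z (S \ U) Tm κ).length + (dky y κ).length)) ∧
      l.length = b ν + lt.length ∧
      ∀ i j, i < j → j ≤ l.length → ¬ (i = 0 ∧ j = l.length) →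
        (l.take i).sum = (l.take j).sum →
        ∃ κ κ', κ < κ' ∧ κ' < ν ∧ b κ < i ∧ i < b (κ + 1) ∧ b κ' < j ∧ j < b (κ' + 1) ∧
          (l.take i).sum ∈ dkP φ y w Z Tm κ ∧ (l.take i).sum ∈ dkP φ y w Z Tm κ' := by
  classical
  obtain ⟨l, b, h1, h2, h3, h4, h5⟩ := dk_lists ν (dke φ Z (S \ U) Tm) (dky y) lt (dkS φ y w)
    (dkEnd φ y w) (dkP φ y w Z Tm) (dkW φ y w Z Tm : Set G) (∑ a ∈ A, a)
    (by unfold dkS dkC; rw [h.hw0]; simp) (fun κ hκ => h.he (S \ U) κ hκ)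
    (fun κ _ => h.hys κ) hlt1 hlt2 hlt3
    (by
      rintro κ hκ g ⟨_, u, hu, rfl⟩
      rw [mem_coe, dk_mem_W]
      exact Or.inl ⟨⟨κ, hκ⟩, u, hu, rfl⟩)
    (by
      intro κ hκ
      rw [mem_coe, dk_mem_W]
      exact Or.inr ⟨κ, hκ, κ, hκ, rfl⟩)
    (by
      intro κ hκ
      rw [mem_coe, dk_mem_W]
      exact Or.inr ⟨κ, hκ.le, κ + 1, hκ, rfl⟩)
    (fun κ hκ κ' hκ' he => h.hw κ hκ κ' hκ' (h.coset hκ hκ' he).2)
    (fun κ hκ κ' hκ' he => by
      have := h.hw (κ + 1) (by omega) (κ' + 1) (by omega) (h.coset hκ.le hκ'.le he).2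
      omega)
    (fun κ hκ κ' hκ' he => h.hw κ hκ (κ' + 1) (by omega) (h.coset hκ hκ'.le he).2)
    (by
      rintro κ hκ κ' hκ' ⟨_, u, hu, he⟩
      have h6 := (h.coset hκ' hκ.le he).2
      exact ((h.c1 ⟨κ, hκ⟩).2.2.2 u hu).2 (h6 ▸ h.hwy κ' hκ'))
    (by
      rintro κ hκ κ' hκ' ⟨_, u, hu, he⟩
      have h6 := (h.coset hκ'.le hκ.le he).2
      exact ((h.c1 ⟨κ, hκ⟩).2.2.2 u hu).2 (h6 ▸ h.hwy (κ' + 1) hκ'))
    (by
      rintro κ hκ ⟨_, u, hu, he⟩
      have h6 : ∑ a ∈ A, a - dkC y κ ∈ V := by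
        rw [he, add_sub_cancel_left, ← SetLike.mem_coe, ← h.hr]
        exact ⟨_, rfl⟩
      have h7 := h.hT₀ κ hκ.le h6
      rw [h7] at he
      have h8 := h.hφ (add_left_cancel he)
      exact ((h.c1 ⟨κ, hκ⟩).2.2.2 u hu).2 (h8 ▸ h.hwyT))
    (by
      intro κ hκ hκ0 he
      have h6 : ∑ a ∈ A, a - dkC y κ ∈ V := by
        rw [← he]
        unfold dkS
        rw [add_sub_cancel_left, ← SetLike.mem_coe, ← h.hr]
        exact ⟨_, rfl⟩
      have h7 := h.hT₀ κ hκ h6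
      rw [h7] at he
      exact h.hwT κ hκ hκ0 (h.hφ (add_left_cancel he)))
    (by
      intro κ hκ he
      have h6 : ∑ a ∈ A, a - dkC y κ ∈ V := by
        rw [← he]
        unfold dkEnd
        rw [add_sub_cancel_left, ← SetLike.mem_coe, ← h.hr]
        exact ⟨_, rfl⟩
      have h7 := h.hT₀ κ hκ.le h6
      rw [h7] at he
      exact h.hwT (κ + 1) hκ (Nat.succ_pos _) (h.hφ (add_left_cancel he)))
  refine ⟨l, b, ?_, h2, h3, h4, h5⟩
  rw [h1, h.content, Finset.sum_add_distrib]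
  -- the chains
  have e1 : ∑ κ ∈ range ν, ((dke φ Z (S \ U) Tm κ : List G) : Multiset G) =
      ∑ κ : Fin ν, (((cl (Tm κ)).map φ : List G) : Multiset G) +
        ∑ z ∈ S \ U, ((dkE φ Z z : List G) : Multiset G) := by
    rw [Finset.sum_range]
    have e2 : ∀ κ : Fin ν, ((dke φ Z (S \ U) Tm κ : List G) : Multiset G) =
        (((cl (Tm κ)).map φ : List G) : Multiset G) +
          ∑ z ∈ (sk (Tm κ)).toFinset.filter (fun z => z ∈ S \ U),
            ((dkE φ Z z : List G) : Multiset G) := by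
      intro κ
      unfold dke
      rw [dif_pos κ.2]
      have e3 := (ex_perm Z (S \ U) (Tm κ)).map φ
      have e4 := Multiset.coe_eq_coe.2 e3
      rw [e4, List.map_append, ← Multiset.coe_add]
      congr 1
      have e5 : (((sk (Tm κ)).filter fun z => z ∈ S \ U).Nodup) := (h.c3 κ).2.1.filter _
      have e6 : ∑ z ∈ (sk (Tm κ)).toFinset.filter (fun z => z ∈ S \ U),
          ((dkE φ Z z : List G) : Multiset G) =
          (((sk (Tm κ)).filter fun z => z ∈ S \ U).map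
            fun z => ((dkE φ Z z : List G) : Multiset G)).sum := by
        rw [← List.sum_toFinset _ e5]
        apply Finset.sum_congr ?_ fun _ _ => rfl
        ext z
        simp
      rw [e6]
      generalize ((sk (Tm κ)).filter fun z => z ∈ S \ U) = q
      induction q with
      | nil => simp
      | cons z q ih =>
        rw [List.flatMap_cons, List.map_append, ← Multiset.coe_add, List.map_cons, List.sum_cons,
          ih]
        congr 1
        unfold dkE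
        rw [List.map_ofFn]
        rfl
    rw [Finset.sum_congr rfl fun κ _ => e2 κ, Finset.sum_add_distrib]
    congr 1
    rw [← Finset.sum_biUnion]
    · apply Finset.sum_congr ?_ fun _ _ => rfl
      ext z
      rw [mem_biUnion]
      constructor
      · rintro ⟨κ, _, hz⟩
        exact (mem_filter.1 hz).2
      · intro hz
        obtain ⟨κ, hκ⟩ := (h.c5 z).2 (mem_sdiff.1 hz).1
        exact ⟨κ, mem_univ _, mem_filter.2 ⟨List.mem_toFinset.2 hκ, hz⟩⟩
    · intro κ _ κ' _ hne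
      rw [Function.onFun, Finset.disjoint_left]
      intro z hz hz'
      exact (h.c4 κ κ' hne).2 (List.mem_toFinset.1 (mem_filter.1 hz).1)
        (List.mem_toFinset.1 (mem_filter.1 hz').1)
  have e7 : (lt : Multiset G) = (dkΛ A φ y Z S Tm).val +
      ∑ z ∈ U, ((dkE φ Z z : List G) : Multiset G) := by
    rw [Multiset.coe_eq_coe.2 hlt, ← Multiset.coe_add, Finset.coe_toList]
    congr 1
    rw [← Finset.sum_map_toList U fun z => ((dkE φ Z z : List G) : Multiset G)]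
    generalize U.toList = q
    induction q with
    | nil => simp
    | cons z q ih =>
      rw [List.flatMap_cons, ← Multiset.coe_add, List.map_cons, List.sum_cons, ih]
  rw [e1, e7, ← Finset.sum_sdiff hU]
  abel

end

end Pool.Agent.SDN
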