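import Pool.Agent.Lib_helper8.SDN.DKd

/-!
Block DK (assembly of the dense theorem), part e: way points, the tail, lengths.
-/

namespace Pool.Agent.SDN

open Finset

theorem dk_Vfin {G : Type*} [AddCommGroup G] (H : AddSubgroup G) (x : G)
    (hfin : (H : Set G).Finite) (j : ℕ) (hj : 1 ≤ j) (hjx : j • x ∈ H) :
    ((H ⊔ AddSubgroup.zmultiples x : AddSubgroup G) : Set G).Finite ∧
      ∀ z ∈ H ⊔ AddSubgroup.zmultiples x, ∃ i : ℕ, z - i • x ∈ H := by
  have hrep : ∀ z ∈ H ⊔ AddSubgroup.zmultiples x, ∃ i : ℕ, i < j ∧ z - i • x ∈ H := by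
    intro z hz
    rw [AddSubgroup.mem_sup] at hz
    obtain ⟨h, hh, y, hy, rfl⟩ := hz
    obtain ⟨n, rfl⟩ := AddSubgroup.mem_zmultiples_iff.1 hy
    have hj' : (j : ℤ) ≠ 0 := by omega
    have h1 := Int.emod_nonneg n hj'
    have h2 := Int.emod_lt_of_pos n (show (0 : ℤ) < j by omega)
    refine ⟨(n % j).toNat, by omega, ?_⟩
    have h3 : ((n % j).toNat) • x = (n % j) • x := by
      conv_rhs => rw [← Int.toNat_of_nonneg h1]
      rw [natCast_zsmul]
    have h4 : (n / j) • (j • x) = ((j : ℤ) * (n / j)) • x := by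
      rw [mul_comm, mul_zsmul, natCast_zsmul]
    have h5 : n • x = (n % j) • x + ((j : ℤ) * (n / j)) • x := by
      rw [← add_zsmul, Int.emod_add_mul_ediv]
    rw [h3, h5, ← h4]
    have h6 : h + ((n % j) • x + (n / j) • (j • x)) - (n % j) • x = h + (n / j) • (j • x) := by
      abel
    rw [h6]
    exact H.add_mem hh (H.zsmul_mem hjx _)
  refine ⟨?_, fun z hz => (hrep z hz).imp fun i hi => hi.2⟩
  have : Finite H := hfin
  let f : Fin j × H → G := fun p => (p.1 : ℕ) • x + (p.2 : G)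
  refine (Set.finite_range f).subset fun z hz => ?_
  obtain ⟨i, hi, hz'⟩ := hrep z hz
  exact ⟨(⟨i, hi⟩, ⟨_, hz'⟩), by simp [f]⟩

theorem dk_rep {G V₀ : Type*} [AddCommGroup G] [AddCommGroup V₀] (V : AddSubgroup G)
    (φ : V₀ →+ G) (hr : Set.range φ = (V : Set G)) (y : ℕ → G) (ν : ℕ)
    (hC : ∀ κ ≤ ν, ∀ κ' ≤ ν, dkC y κ - dkC y κ' ∈ V → dkC y κ = dkC y κ') (g : G) :
    ∃ g₀ : V₀, ∀ κ ≤ ν, g - dkC y κ ∈ V → g = dkC y κ + φ g₀ := by
  by_cases h : ∃ κ ≤ ν, g - dkC y κ ∈ V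
  · obtain ⟨κ, hκ, h1⟩ := h
    rw [← SetLike.mem_coe, ← hr] at h1
    obtain ⟨g₀, hg⟩ := h1
    refine ⟨g₀, fun κ' hκ' h2 => ?_⟩
    have h3 : dkC y κ - dkC y κ' ∈ V := by
      have h4 : dkC y κ - dkC y κ' = (g - dkC y κ') - (g - dkC y κ) := by abel
      rw [h4]
      refine V.sub_mem h2 ?_
      rw [← SetLike.mem_coe, ← hr]
      exact ⟨_, hg⟩
    rw [← hC κ hκ κ' hκ' h3, hg]
    abel
  · push Not at h
    exact ⟨0, fun κ hκ h1 => absurd h1 (h κ hκ)⟩

theorem dk_w {V₀ : Type*} [AddCommGroup V₀] [Fintype V₀] (T₀ : V₀) (ν : ℕ)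
    (h : ν + 2 ≤ Fintype.card V₀) : ∃ w : ℕ → V₀, w 0 = 0 ∧
      (∀ i ≤ ν, ∀ j ≤ ν, w i = w j → i = j) ∧ ∀ i ≤ ν, 0 < i → w i ≠ T₀ := by
  classical
  have h1 : ν ≤ (univ \ {0, T₀} : Finset V₀).card := by
    have h2 := Finset.card_le_two (a := (0 : V₀)) (b := T₀)
    have h3 := Finset.le_card_sdiff ({0, T₀} : Finset V₀) univ
    rw [card_univ] at h3
    omega
  obtain ⟨F, hF, hFc⟩ := Finset.exists_subset_card_eq h1
  have hm : ∀ i : Fin ν, ((F.equivFinOfCardEq hFc).symm i : V₀) ∈ F := fun i =>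
    ((F.equivFinOfCardEq hFc).symm i).2
  have hne : ∀ u ∈ F, u ≠ 0 ∧ u ≠ T₀ := by
    intro u hu
    have h2 := (mem_sdiff.1 (hF hu)).2
    rw [mem_insert, mem_singleton, not_or] at h2
    exact h2
  refine ⟨fun i => if hi : 0 < i ∧ i ≤ ν then
    ((F.equivFinOfCardEq hFc).symm ⟨i - 1, by omega⟩ : V₀) else 0, ?_, ?_, ?_⟩
  · simp
  · intro i hi j hj hij
    simp only at hij
    by_cases h2 : 0 < i
    · by_cases h3 : 0 < j
      · rw [dif_pos ⟨h2, hi⟩, dif_pos ⟨h3, hj⟩] at hij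
        have h4 := (F.equivFinOfCardEq hFc).symm.injective (Subtype.ext hij)
        have h5 := congrArg Fin.val h4
        simp only at h5
        omega
      · rw [dif_pos ⟨h2, hi⟩, dif_neg (by omega)] at hij
        exact absurd hij (hne _ (hm _)).1
    · by_cases h3 : 0 < j
      · rw [dif_neg (by omega), dif_pos ⟨h3, hj⟩] at hij
        exact absurd hij.symm (hne _ (hm _)).1
      · omega
  · intro i hi h2
    simp only
    rw [dif_pos ⟨h2, hi⟩]
    exact (hne _ (hm _)).2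

section

variable {G V₀ : Type*} [AddCommGroup G] [AddCommGroup V₀] [Fintype V₀] {A : Finset G}
    {H V : AddSubgroup G} {x : G} {φ : V₀ →+ G} {ν N m s : ℕ} {y : ℕ → G} {w : ℕ → V₀}
    {T₀ : V₀} {L : Fin ν → Finset (Fin N)} {B₀ : Finset V₀} {Z : Fin s → Fin m → V₀}
    {S : Finset (Fin s)} {lab : V₀ → Fin N} {wy : Finset V₀}
    {Tm : Fin ν → List (V₀ × Option (Fin s))}

open Classical in
theorem DKD.free (h : DKD A H V x φ ν N m s y w T₀ L B₀ Z S lab wy Tm)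
    (hL : ∀ κ, ∀ l ∈ L κ, 2 ≤ (l : ℕ)) (κ : ℕ) (hκ : κ ≤ ν) (u : V₀)
    (hu : ((lab u : Fin N) : ℕ) = 0) (huw : u ∉ wy) : dkC y κ + φ u ∉ dkW φ y w Z Tm := by
  intro hW
  rw [dk_mem_W] at hW
  rcases hW with ⟨κ', u', hu', he⟩ | ⟨κ', hκ', i, hi, he⟩
  · have h1 := (h.coset κ'.2.le hκ he).2
    rcases ((h.c1 κ').2.2.2 u' hu').1 with h2 | h2
    · have := hL κ' _ h2
      rw [h1] at this
      omega
    · rw [h1] at h2
      omega
  · have h1 := (h.coset hκ' hκ he).2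
    exact huw (h1 ▸ h.hwy i hi)

open Classical in
theorem DKD.tail (h : DKD A H V x φ ν N m s y w T₀ L B₀ Z S lab wy Tm)
    (hL : ∀ κ, ∀ l ∈ L κ, 2 ≤ (l : ℕ)) (R : ℕ)
    (hR : 10 * (m + 2) ^ 2 * ((dkΛ A φ y Z S Tm).card + 3) ≤ R)
    (hSP : ∀ c : Fin (m + 1) → V₀, R ≤ (S.filter fun z =>
      (∀ i, ((lab (P (Z z) 1 + c i) : Fin N) : ℕ) = 0 ∧ P (Z z) 1 + c i ∉ wy) ∧
      ∀ j, 2 ≤ j → j < m → ((lab (T₀ + P (Z z) j) : Fin N) : ℕ) = 0 ∧
        T₀ + P (Z z) j ∉ wy).card) :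
    ∃ (U : Finset (Fin s)) (lt : List G), U ⊆ S ∧ U.card ≤ (dkΛ A φ y Z S Tm).card + 2 ∧
      lt.Perm ((dkΛ A φ y Z S Tm).toList ++ U.toList.flatMap fun z => dkE φ Z z) ∧
      (vs (dkS φ y w ν) lt).Nodup ∧
      vs (dkS φ y w ν) lt = (vs (dkS φ y w ν) lt).dropLast ++ [∑ a ∈ A, a] ∧
      ∀ u ∈ (vs (dkS φ y w ν) lt).dropLast, u ∉ dkW φ y w Z Tm ∧ u ≠ ∑ a ∈ A, a := by
  have hZ' := fam_map φ h.hφ B₀ 0 Z h.hZ (B₀.image φ) (fun b hb => mem_image_of_mem _ hb)
  rw [map_zero] at hZ'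
  obtain ⟨U, lt, h1, h2, h3, h4, h5, h6⟩ := stepping h.hm (fun z i => φ (Z z i)) (B₀.image φ)
    hZ' S (dkW φ y w Z Tm) (∑ a ∈ A, a) (dkS φ y w ν) (dkΛ A φ y Z S Tm).toList
    (by
      intro a ha
      rw [Finset.mem_toList] at ha
      rintro rfl
      exact h.h0 (mem_filter.1 ha).1)
    h.sum_eq R
    (by
      intro c
      obtain ⟨c₀, hc₀⟩ : ∃ c₀ : Fin (m + 1) → V₀, ∀ i, ∀ κ ≤ ν, c i - dkC y κ ∈ V →
          c i = dkC y κ + φ (c₀ i) := by
        choose c₀ hc₀ using fun i => dk_rep V φ h.hr y ν h.hC (c i)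
        exact ⟨c₀, hc₀⟩
      refine (hSP c₀).trans (card_le_card ?_)
      intro z hz
      rw [mem_filter] at hz ⊢
      have hin : ∀ u : V₀, φ u ∈ V := fun u => by
        rw [← SetLike.mem_coe, ← h.hr]
        exact ⟨u, rfl⟩
      have key : ∀ (g : G) (g₀ u : V₀), (∀ κ ≤ ν, g - dkC y κ ∈ V → g = dkC y κ + φ g₀) →
          ((lab (u + g₀) : Fin N) : ℕ) = 0 → u + g₀ ∉ wy → φ u + g ∉ dkW φ y w Z Tm := by
        intro g g₀ u hg hlab hwy' hW
        have hex : ∃ κ ≤ ν, ∃ u' : V₀, dkC y κ + φ u' = φ u + g := by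
          rw [dk_mem_W] at hW
          rcases hW with ⟨κ', u', _, he⟩ | ⟨κ', hκ', i, hi, he⟩
          · exact ⟨κ', κ'.2.le, u', he⟩
          · exact ⟨κ', hκ', _, he⟩
        obtain ⟨κ, hκ, u', he⟩ := hex
        have h7 : g - dkC y κ ∈ V := by
          have h8 : g - dkC y κ = φ u' - φ u := by
            rw [sub_eq_sub_iff_add_eq_add, add_comm (φ u') (dkC y κ), he, add_comm]
          rw [h8]
          exact V.sub_mem (hin _) (hin _)
        have h9 := hg κ hκ h7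
        have h10 : φ u + g = dkC y κ + φ (u + g₀) := by
          rw [h9, map_add]
          abel
        rw [h10] at hW
        exact h.free hL κ hκ (u + g₀) hlab hwy' hW
      refine ⟨hz.1, fun i => ?_, fun j hj hjm => ?_⟩
      · rw [P_map]
        exact key (c i) (c₀ i) _ (hc₀ i) (hz.2.1 i).1 (hz.2.1 i).2
      · rw [P_map, add_comm]
        have h7 := hz.2.2 j hj hjm
        rw [add_comm T₀] at h7
        exact key (∑ a ∈ A, a) T₀ _ h.hT₀ h7.1 h7.2)
    (by rwa [Finset.length_toList])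
  rw [Finset.length_toList] at h2
  exact ⟨U, lt, h1, h2, h3, h4, h5, h6⟩

open Classical in
theorem DKD.len (h : DKD A H V x φ ν N m s y w T₀ L B₀ Z S lab wy Tm) (hN : 2 ≤ N) (η' : ℝ)
    (hlab : ∀ l, |((univ.filter fun u => lab u = l).card : ℝ) - (Fintype.card V₀ : ℝ) / N| ≤
      η' * Fintype.card V₀) (U : Finset (Fin s)) (κ : Fin ν) :
    ((dke φ Z U Tm κ).length + (dky y κ).length : ℝ) ≤
      (((L κ).card : ℝ) + 1) * ((Fintype.card V₀ : ℝ) / N + η' * Fintype.card V₀) + 2 := by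
  set v : ℝ := (Fintype.card V₀ : ℝ) with hv
  have h1 : ((dky y κ).length : ℝ) ≤ 1 := by
    unfold dky
    split_ifs <;> simp
  -- length of the chain
  have h2 : (dke φ Z U Tm κ).length ≤ (rv Z (w κ) (Tm κ)).length := by
    unfold dke
    rw [dif_pos κ.2, List.length_map, ← vs_length (w κ)]
    exact (vs_ex (by have := h.hm; omega) Z U h.hZ.tot (w κ) (Tm κ)).length_le
  have h3 : (rv Z (w κ) (Tm κ)).length ≤ (rv Z (w κ) (Tm κ)).dropLast.length + 1 := by
    rw [List.length_dropLast]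
    omega
  let one : Fin N := ⟨1, by omega⟩
  have h4 : (rv Z (w κ) (Tm κ)).dropLast.length ≤
      (insert one (L κ)).sum fun l => (univ.filter fun u : V₀ => lab u = l).card := by
    rw [← List.toFinset_card_of_nodup (h.c1 κ).2.2.1]
    rw [← Finset.card_biUnion]
    · apply card_le_card
      intro u hu
      rw [List.mem_toFinset] at hu
      rw [mem_biUnion]
      refine ⟨lab u, ?_, by simp⟩
      rcases ((h.c1 κ).2.2.2 u hu).1 with h5 | h5
      · exact mem_insert_of_mem h5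
      · have : lab u = one := Fin.ext h5
        rw [this]
        exact mem_insert_self _ _
    · intro l _ l' _ hne
      rw [Function.onFun, Finset.disjoint_left]
      intro u hu hu'
      exact hne ((mem_filter.1 hu).2.symm.trans (mem_filter.1 hu').2)
  have h5 : (((insert one (L κ)).sum fun l => (univ.filter fun u : V₀ => lab u = l).card : ℕ) : ℝ)
      ≤ (((L κ).card : ℝ) + 1) * (v / N + η' * v) := by
    push_cast
    have h6 : ∀ l ∈ insert one (L κ), ((univ.filter fun u : V₀ => lab u = l).card : ℝ) ≤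
        v / N + η' * v := by
      intro l _
      have := (abs_le.1 (hlab l)).2
      linarith
    refine (Finset.sum_le_card_nsmul _ _ _ h6).trans ?_
    rw [nsmul_eq_mul]
    have h7 : ((insert one (L κ)).card : ℝ) ≤ (L κ).card + 1 := by
      exact_mod_cast card_insert_le _ _
    refine mul_le_mul_of_nonneg_right h7 ?_
    have := h6 one (mem_insert_self _ _)
    exact le_trans (by positivity) this
  have h6 : ((dke φ Z U Tm κ).length : ℝ) ≤
      (((L κ).card : ℝ) + 1) * (v / N + η' * v) + 1 := by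
    have h7 : ((dke φ Z U Tm κ).length : ℝ) ≤
        (((insert one (L κ)).sum fun l => (univ.filter fun u : V₀ => lab u = l).card : ℕ) : ℝ)
          + 1 := by
      exact_mod_cast h2.trans (h3.trans (Nat.add_le_add_right h4 1))
    linarith
  linarith

end

end Pool.Agent.SDN
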